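import Pool.Agent.Lib.MP_f8720a_ag.Rat

/-!
# The two outer terms, coefficients in a field of characteristic zero
-/

namespace Pool.Agent.MP_f8720a_ag

namespace Numbers

variable {S : Strata} (D : Numbers S) {F : Type} [Field F] [CharZero F]

theorem fun_sign (f : F →ₗ[ℚ] ℚ) (n : ℕ) (x : F) : f ((-1) ^ n * x) = (-1) ^ n * f x := by
  rcases Nat.even_or_odd n with he | ho
  · rw [he.neg_one_pow, he.neg_one_pow, one_mul, one_mul]
  · rw [ho.neg_one_pow, ho.neg_one_pow, neg_one_mul, neg_one_mul, map_neg]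

theorem fun_rat (f : F →ₗ[ℚ] ℚ) (x : F) (r : ℚ) : f (x * (r : F)) = f x * r := by
  rw [mul_comm, ← Rat.smul_def, map_smul, smul_eq_mul, mul_comm]

theorem fun_delta (f : F →ₗ[ℚ] ℚ) (m : ℕ) (b : S.K m → F) :
    (fun W => f (S.delta F m b W)) = S.delta ℚ m fun Y => f (b Y) := by
  funext W
  show f (∑ k : Fin (m + 2), (-1) ^ (k : ℕ) * b (S.face m k W)) =
    ∑ k : Fin (m + 2), (-1) ^ (k : ℕ) * f (b (S.face m k W))
  rw [map_sum]
  exact Finset.sum_congr rfl fun k _ => fun_sign f _ _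

theorem fun_gysin (f : F →ₗ[ℚ] ℚ) (m : ℕ) (a : S.K (m + 1) → F) (Y : S.K m) (p : S.Over m Y) :
    f (S.gysin F m a Y p) = S.gysin ℚ m (fun Z => f (a Z)) Y p :=
  fun_sign f _ _

theorem fun_sum (f : F →ₗ[ℚ] ℚ) (m : ℕ) (a : S.K (m + 1) → F) (Y : S.K m)
    (r : S.Over m Y → ℚ) :
    f (∑ p, S.gysin F m a Y p * (r p : F)) =
      ∑ p, S.gysin ℚ m (fun Z => f (a Z)) Y p * r p := by
  rw [map_sum]
  refine Finset.sum_congr rfl fun p _ => ?_
  rw [fun_rat, fun_gysin]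

theorem fun_ext (x : F) (h : ∀ f : F →ₗ[ℚ] ℚ, f x = 0) : x = 0 :=
  (Module.forall_dual_apply_eq_zero_iff ℚ x).1 h

theorem delta_delta_coef (m : ℕ) (b : S.K m → F) : S.delta F (m + 1) (S.delta F m b) = 0 := by
  have h1 : ∀ f : F →ₗ[ℚ] ℚ, (fun W => f (S.delta F (m + 1) (S.delta F m b) W)) = 0 := by
    intro f
    rw [fun_delta, fun_delta, S.delta_delta]
  funext W
  exact fun_ext _ fun f => congrFun (h1 f) W

theorem inj_coef (hD : D.IsPolarised) (m : ℕ) (a : S.K (m + 1) → F) (b : S.K m → F)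
    (hab : a = S.delta F m b)
    (hg : ∀ Y, ∑ p, S.gysin F m a Y p * (D.vol (m + 1) p.1.2 : F) = 0) : a = 0 := by
  funext Z
  refine fun_ext _ fun f => ?_
  have h1 : (fun Z => f (a Z)) = 0 := by
    refine D.inj_rat hD m _ (fun Y => f (b Y)) ?_ ?_
    · rw [← fun_delta, ← hab]
    · intro Y
      have h2 := fun_sum f m a Y fun p => D.vol (m + 1) p.1.2
      rw [hg Y, map_zero] at h2
      exact h2.symm
  exact congrFun h1 Z

theorem surj_coef (hD : D.IsPolarised) (m : ℕ) (a : S.K (m + 1) → F)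
    (ha : S.delta F (m + 1) a = 0) :
    ∃ b : S.K m → F, a - S.delta F m b ∈ D.harm F m := by
  classical
  obtain ⟨π, hπ⟩ := D.exists_proj hD m
  set b : S.K m → F := fun Y => ∑ Z, (π (fun Z' => if Z = Z' then 1 else 0) Y) • a Z with hb
  have h1 : ∀ f : F →ₗ[ℚ] ℚ, (fun Z => f ((a - S.delta F m b) Z)) =
      (fun Z => f (a Z)) - S.delta ℚ m (π fun Z => f (a Z)) := by
    intro f
    funext Z
    show f (a Z - _) = f (a Z) - _
    rw [map_sub]
    congr 1
    refine (congrFun (fun_delta f m b) Z).trans ?_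
    have h3 : (fun Y => f (b Y)) = π fun Z => f (a Z) := by
      funext Y
      rw [hb, map_sum, LinearMap.pi_apply_eq_sum_univ π (fun Z => f (a Z))]
      rw [Finset.sum_apply]
      refine Finset.sum_congr rfl fun Z _ => ?_
      rw [map_smul, Pi.smul_apply, smul_eq_mul, smul_eq_mul, mul_comm]
    rw [h3]
  have h2 : ∀ f : F →ₗ[ℚ] ℚ, S.delta ℚ (m + 1) (fun Z => f (a Z)) = 0 := by
    intro f
    rw [← fun_delta, ha]
    funext W
    exact map_zero f
  refine ⟨b, ?_, fun Y => ⟨?_, fun p' => ?_⟩⟩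
  · rw [map_sub, ha, delta_delta_coef, sub_zero]
  · refine fun_ext _ fun f => ?_
    rw [fun_sum f m (a - S.delta F m b) Y fun p => D.vol (m + 1) p.1.2, h1 f]
    exact (hπ _ (h2 f) Y).1
  · refine fun_ext _ fun f => ?_
    rw [fun_sum f m (a - S.delta F m b) Y fun p => D.inter m Y p p', h1 f]
    exact (hπ _ (h2 f) Y).2 p'

/-- **The outermost step**: `E_2^{-q,2q} → E_2^{q,0}` is bijective. -/
theorem bij_harm (hD : D.IsPolarised) (m : ℕ) :
    Bij (D.harm F m) (S.cocyc F m) (S.cobd F m) := by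
  refine ⟨fun a ha => ha.1, ?_, ?_⟩
  · rintro a ha ⟨b, hb⟩
    exact D.inj_coef hD m a b hb.symm fun Y => (ha.2 Y).1
  · intro c hc
    obtain ⟨b, hb⟩ := D.surj_coef hD m c hc
    exact ⟨_, hb, ⟨b, by abel⟩⟩

end Numbers

end Pool.Agent.MP_f8720a_ag
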