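import Pool.Agent.Lib.MP_f8720a_ag.Defs

/-!
# Face combinatorics
-/

namespace Pool.Agent.MP_f8720a_ag

namespace Strata

variable (S : Strata)

theorem face_inj (m : ℕ) (W : S.K (m + 1)) :
    Function.Injective fun k : Fin (m + 2) => S.face m k W := by
  intro k k' h
  by_contra hne
  have h' : S.face m k W = S.face m k' W := h
  -- `k'` is missed by the right-hand side
  obtain ⟨t, ht⟩ := Fin.exists_succAbove_eq (Ne.symm hne)
  have h1 := S.idx_face m k W t
  have h2 := S.idx_face m k' W t
  rw [h', h2, ht] at h1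
  exact Fin.succAbove_ne k' t ((S.idx (m + 1) W).injective h1)

theorem face_face_iff (m : ℕ) (W : S.K (m + 2)) (k k' : Fin (m + 3)) (hne : k ≠ k')
    (i i' : Fin (m + 2)) (hi : k.succAbove i = k') (hi' : k'.succAbove i' = k)
    (r r' : Fin (m + 2)) :
    S.face m r (S.face (m + 1) k W) = S.face m r' (S.face (m + 1) k' W) ↔ r = i ∧ r' = i' := by
  constructor
  · intro h
    have key : ∀ t : Fin (m + 1), k.succAbove (r.succAbove t) = k'.succAbove (r'.succAbove t) := by
      intro t
      apply (S.idx (m + 2) W).injective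
      rw [← S.idx_face (m + 1), ← S.idx_face (m + 1), ← S.idx_face m, ← S.idx_face m, h]
    constructor
    · by_contra hr
      obtain ⟨t, ht⟩ := Fin.exists_succAbove_eq (Ne.symm hr)
      have := key t
      rw [ht, hi] at this
      exact Fin.succAbove_ne k' _ this.symm
    · by_contra hr
      obtain ⟨t, ht⟩ := Fin.exists_succAbove_eq (Ne.symm hr)
      have := key t
      rw [ht, hi'] at this
      exact Fin.succAbove_ne k _ this
  · rintro ⟨rfl, rfl⟩
    have hlt : ∀ (k k' : Fin (m + 3)) (i i' : Fin (m + 2)), k' < k → k.succAbove i = k' →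
        k'.succAbove i' = k →
        S.face m i (S.face (m + 1) k W) = S.face m i' (S.face (m + 1) k' W) := by
      intro k k' i i' hlt hi hi'
      have e1 : i.castSucc = k' := by
        by_cases hc : i.castSucc < k
        · rwa [Fin.succAbove_of_castSucc_lt _ _ hc] at hi
        · rw [Fin.succAbove_of_le_castSucc _ _ (not_lt.mp hc)] at hi
          exfalso
          have h1 : k ≤ i.castSucc := not_lt.mp hc
          rw [Fin.lt_def] at hlt
          rw [Fin.le_def] at h1
          have h2 := congrArg Fin.val hi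
          simp at h1 h2
          omega
      have e2 : i'.succ = k := by
        by_cases hc : i'.castSucc < k'
        · rw [Fin.succAbove_of_castSucc_lt _ _ hc] at hi'
          exfalso
          rw [hi'] at hc
          exact absurd hlt (not_lt.mpr hc.le)
        · rwa [Fin.succAbove_of_le_castSucc _ _ (not_lt.mp hc)] at hi'
      have hle : i ≤ i' := by
        rw [Fin.le_def]
        rw [← e1, ← e2, Fin.lt_def] at hlt
        simp at hlt
        omega
      have := S.face_face m i i' hle W
      rw [← e1, ← e2]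
      exact this
    rcases lt_or_gt_of_ne hne with h | h
    · exact (hlt k' k r' r h hi' hi).symm
    · exact hlt k k' r r' h hi hi'

/-- The sign of a pair of faces. -/
theorem sign_pair (m : ℕ) (k k' : Fin (m + 3)) (hne : k ≠ k')
    (i i' : Fin (m + 2)) (hi : k.succAbove i = k') (hi' : k'.succAbove i' = k) :
    ((-1 : ℚ) ^ (i : ℕ)) * (-1) ^ (i' : ℕ) = - (((-1) ^ (k : ℕ)) * (-1) ^ (k' : ℕ)) := by
  have hlt : ∀ (k k' : Fin (m + 3)) (i i' : Fin (m + 2)), k' < k → k.succAbove i = k' →
      k'.succAbove i' = k →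
      ((-1 : ℚ) ^ (i : ℕ)) * (-1) ^ (i' : ℕ) = - (((-1) ^ (k : ℕ)) * (-1) ^ (k' : ℕ)) := by
    intro k k' i i' hlt hi hi'
    have e1 : (i : ℕ) = k' := by
      by_cases hc : i.castSucc < k
      · rw [Fin.succAbove_of_castSucc_lt _ _ hc] at hi
        rw [← hi]
        simp
      · rw [Fin.succAbove_of_le_castSucc _ _ (not_lt.mp hc)] at hi
        exfalso
        have h1 : k ≤ i.castSucc := not_lt.mp hc
        rw [Fin.lt_def] at hlt
        rw [Fin.le_def] at h1
        have h2 := congrArg Fin.val hi
        simp at h1 h2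
        omega
    have e2 : (i' : ℕ) + 1 = k := by
      by_cases hc : i'.castSucc < k'
      · rw [Fin.succAbove_of_castSucc_lt _ _ hc] at hi'
        exfalso
        rw [hi'] at hc
        exact absurd hlt (not_lt.mpr hc.le)
      · rw [Fin.succAbove_of_le_castSucc _ _ (not_lt.mp hc)] at hi'
        rw [← hi']
        simp
    rw [e1, ← e2, pow_succ]
    ring
  rcases lt_or_gt_of_ne hne with h | h
  · have := hlt k' k i' i h hi' hi
    linarith
  · exact hlt k k' i i' h hi hi'

open Classical in
/-- Sum over the strata below `W`. -/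
theorem sum_sub (m : ℕ) (W : S.K (m + 1)) (h : S.K m → ℚ) :
    ∑ Z : S.K m, (if S.Sub m W Z then h Z else 0) = ∑ k : Fin (m + 2), h (S.face m k W) := by
  rw [← Finset.sum_filter]
  have : (Finset.univ.filter fun Z => S.Sub m W Z) =
      Finset.univ.image (fun k : Fin (m + 2) => S.face m k W) := by
    ext Z
    simp only [Finset.mem_filter, Finset.mem_univ, true_and, Finset.mem_image]
    rfl
  rw [this, Finset.sum_image]
  intro k _ k' _ hk
  exact S.face_inj m W hk

/-- Sum over all divisors of all strata. -/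
theorem sum_over (m : ℕ) (g : ∀ Y : S.K m, S.Over m Y → ℚ) :
    ∑ Y, ∑ p : S.Over m Y, g Y p =
      ∑ Z : S.K (m + 1), ∑ i : Fin (m + 2), g (S.face m i Z) ⟨(i, Z), rfl⟩ := by
  have h1 : ∑ Y, ∑ p : S.Over m Y, g Y p = ∑ x : (Σ Y, S.Over m Y), g x.1 x.2 := by
    rw [Fintype.sum_sigma]
  rw [h1]
  let e : (Fin (m + 2) × S.K (m + 1)) ≃ (Σ Y, S.Over m Y) :=
    { toFun := fun x => ⟨S.face m x.1 x.2, ⟨x, rfl⟩⟩
      invFun := fun y => y.2.1
      left_inv := fun x => rfl
      right_inv := by
        rintro ⟨Y, ⟨x, hx⟩⟩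
        subst hx
        rfl }
  rw [← Equiv.sum_comp e, Fintype.sum_prod_type, Finset.sum_comm]
  rfl

open Classical in
/-- Sum over the divisors of one stratum. -/
theorem sum_one (m : ℕ) (Y : S.K m) (g : Fin (m + 2) × S.K (m + 1) → ℚ) :
    ∑ p : S.Over m Y, g p.1 =
      ∑ Z : S.K (m + 1), ∑ i : Fin (m + 2), if S.face m i Z = Y then g (i, Z) else 0 := by
  have h1 : ∑ Z : S.K (m + 1), ∑ i : Fin (m + 2), (if S.face m i Z = Y then g (i, Z) else 0) =
      ∑ x : Fin (m + 2) × S.K (m + 1), if S.face m x.1 x.2 = Y then g x else 0 := by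
    rw [Fintype.sum_prod_type, Finset.sum_comm]
  rw [h1, ← Finset.sum_filter]
  refine Finset.sum_bij (fun (p : S.Over m Y) _ => p.1) ?_ ?_ ?_ ?_
  · intro p _
    simp [p.2]
  · intro p _ p' _ h
    exact Subtype.ext h
  · intro x hx
    simp only [Finset.mem_filter, Finset.mem_univ, true_and] at hx
    exact ⟨⟨x, hx⟩, Finset.mem_univ _, rfl⟩
  · intro p _
    rfl

end Strata

end Pool.Agent.MP_f8720a_ag
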