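import Pool.Agent.Lib.MP_f8720a_ag.Defs

/-!
The step `e = q - 1` of the monodromy-weight conjecture for `H ^ q`, `2 ≤ q ≤ d`.

For a projective SNCL scheme of relative dimension `d` put `n = d - q + 2 ≥ 2`. Let `Y`, `Z`, `C` be
the strata of `K (q - 2)`, `K (q - 1)`, `K q`, of dimensions `n`, `n - 1`, `n - 2`. In total degree
`q` the weights `2 q - 1` and `1` are computed by `⊕ H¹(Z)`: the `E₂` terms of this step are the
intersection of the kernels of the Gysin map `G : ⊕ H¹(Z) → ⊕ H³(Y)` and of the restriction
`r : ⊕ H¹(Z) → ⊕ H¹(C)`, and the kernel of `r` modulo the image of the restriction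
`δ : ⊕ H¹(Y) → ⊕ H¹(Z)`, and `N ^ (q - 1)` is induced by the identity of `⊕ H¹(Z)`. The only
inequality which is used is the positivity of the Rosati involution.
-/



namespace Pool.Agent.MP_f8720a_ag

open LinearMap

/-- The data of the step `e = q - 1`, with coefficients in the field `F` (`ℚ_l`).

* `E` is the algebra of the endomorphisms, up to isogeny, of the abelian variety `A × P`, `A` the
  product of the Picard varieties of the strata `Z`, `P` the product of the Picard varieties of the
  strata `Y`, with the Rosati involution `*` of a polarisation (on `A` the one given by the ample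
  class); `τ` is the trace, and `τ (x x*) > 0` for `x ≠ 0` (Weil).
* `U = ⊕ H¹(Y)`, `V = ⊕ H¹(Z)` (up to a Tate twist the Tate modules of `P` and `A`), with the
  Weil forms `BU` and `BV` (on `V` this is `A ^ (n - 2) . v . v'`); `E` acts on `U × V`, and `*` is
  the adjoint for the Weil form. `δ` is the restriction; it comes from the homomorphism `d` of
  abelian varieties.
* `W = ⊕ H¹(C)`, and `r` is the restriction.
* `T = ⊕ H³(Y)`, with `cup t u = A ^ (n - 2) . t . u`; the Gysin map `G` is the transpose of `δ`. -/
structure RosatiData (F E U V W T : Type) [Field F] [Ring E] [Algebra ℚ E] [StarRing E]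
    [AddCommGroup U] [Module F U] [AddCommGroup V] [Module F V] [AddCommGroup W] [Module F W]
    [AddCommGroup T] [Module F T] where
  /-- the algebra of endomorphisms is finite-dimensional -/
  finE : FiniteDimensional ℚ E
  /-- the trace -/
  τ : E →ₗ[ℚ] ℚ
  pos : ∀ x : E, x ≠ 0 → 0 < τ (x * star x)
  finV : FiniteDimensional F V
  /-- the action on the first cohomology -/
  act : E →+* Module.End F (U × V)
  /-- the Weil form of the Picard varieties of the strata `Y` -/
  BU : U →ₗ[F] U →ₗ[F] F
  /-- the Weil form of the Picard varieties of the strata `Z` -/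
  BV : V →ₗ[F] V →ₗ[F] F
  altV : ∀ v, BV v v = 0
  nondegU : ∀ u, (∀ u', BU u u' = 0) → u = 0
  nondegV : ∀ v, (∀ v', BV v v' = 0) → v = 0
  rosati : ∀ (f : E) (w w' : U × V),
    BU (act f w).1 w'.1 + BV (act f w).2 w'.2 =
      BU w.1 (act (star f) w').1 + BV w.2 (act (star f) w').2
  /-- the restriction -/
  δ : U →ₗ[F] V
  /-- the homomorphism of abelian varieties which induces `δ` -/
  d : E
  act_d : ∀ w, act d w = (0, δ w.1)
  /-- the restriction to the next strata -/
  r : V →ₗ[F] W
  r_δ : ∀ u, r (δ u) = 0
  /-- the product of the third and the first cohomology of the strata `Y` -/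
  cup : T →ₗ[F] U →ₗ[F] F
  /-- the Gysin map -/
  G : V →ₗ[F] T
  transpose : ∀ v u, cup (G v) u = BV v (δ u)

namespace RosatiData

variable {F E U V W T : Type} [Field F] [Ring E] [Algebra ℚ E] [StarRing E]
    [AddCommGroup U] [Module F U] [AddCommGroup V] [Module F V] [AddCommGroup W] [Module F W]
    [AddCommGroup T] [Module F T] (C : RosatiData F E U V W T)

/-- The product with `A ^ (n - 2)` is injective on the image of the Gysin map (as
`⊕ H^(2n-1)(Y)` is dual to `U`). It holds if `n = 2` (that is `q = d`), and for all `n` if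
`b_3(Y) = b_1(Y)` for the strata `Y`. -/
def LefInj : Prop := ∀ v, (∀ u, C.cup (C.G v) u = 0) → C.G v = 0

include C

/-- positivity: `x* x = 0` implies `x = 0` -/
theorem proper {x : E} (h : star x * x = 0) : x = 0 := by
  by_contra hx
  have h1 : star x ≠ 0 := fun h0 => hx (by rw [← star_star x, h0, star_zero])
  have h2 := C.pos (star x) h1
  rw [star_star, h, map_zero] at h2
  exact lt_irrefl _ h2

/-- `g = g (g* g) y` for some `y` -/
theorem regular (g : E) : ∃ y, g = g * (star g * g) * y := by
  have := C.finE
  set p := star g * g with hp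
  have hps : star p = p := by rw [hp, star_mul, star_star]
  -- left multiplication by `p` is injective on `p E`
  have hinj : ∀ x, p * (p * x) = 0 → p * x = 0 := by
    intro x hx
    apply C.proper
    rw [star_mul, hps, mul_assoc, hx, mul_zero]
  let L : E →ₗ[ℚ] E := LinearMap.mulLeft ℚ p
  have hL : ∀ x ∈ range L, L x ∈ range L := fun x _ => ⟨x, rfl⟩
  have hinj' : Function.Injective (L.restrict hL) := by
    rw [injective_iff_map_eq_zero]
    rintro ⟨x, z, rfl⟩ h
    apply Subtype.ext
    have h' := congrArg Subtype.val h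
    exact hinj z h'
  have hsurj := LinearMap.surjective_of_injective hinj'
  obtain ⟨⟨m, x, rfl⟩, hm⟩ := hsurj ⟨L 1, 1, rfl⟩
  have hm' : p * (p * x) = p := by
    have := congrArg Subtype.val hm
    change p * (p * x) = p * 1 at this
    rwa [mul_one] at this
  refine ⟨x, ?_⟩
  have hz : g - g * p * x = 0 := by
    have h2 : g - g * p * x = g * (1 - p * x) := by rw [mul_sub, mul_one, mul_assoc]
    rw [h2]
    apply C.proper
    have h3 : star (g * (1 - p * x)) * (g * (1 - p * x)) =
        star (1 - p * x) * (p * (1 - p * x)) := by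
      rw [star_mul, hp]
      simp only [mul_assoc]
    have h4 : p * (1 - p * x) = 0 := by rw [mul_sub, mul_one, hm', sub_self]
    rw [h3, h4, mul_zero]
  exact sub_eq_zero.1 hz

/-- `f = k f* f` for some `k` -/
theorem regular' (f : E) : ∃ k, f = k * (star f * f) := by
  obtain ⟨y, hy⟩ := C.regular (star f)
  refine ⟨star y * f, ?_⟩
  have h := congrArg star hy
  simp only [star_mul, star_star] at h
  rw [mul_assoc, ← mul_assoc f]
  exact h

/-- The Weil form is nondegenerate on the image of `δ`. -/
theorem polarised (u : U) (h : ∀ u', C.BV (C.δ u) (C.δ u') = 0) : C.δ u = 0 := by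
  obtain ⟨k, hk⟩ := C.regular' C.d
  have h1 : C.act (star C.d) (C.act C.d (u, 0)) = 0 := by
    have h2 : ∀ w' : U × V, C.BU (C.act (star C.d) (C.act C.d (u, 0))).1 w'.1 +
        C.BV (C.act (star C.d) (C.act C.d (u, 0))).2 w'.2 = 0 := by
      intro w'
      rw [C.rosati, star_star, C.act_d, C.act_d]
      simp only [map_zero, zero_add]
      exact h w'.1
    apply Prod.ext
    · apply C.nondegU
      intro u'
      simpa using h2 (u', 0)
    · apply C.nondegV
      intro v'
      simpa using h2 (0, v')
  have h3 : C.act C.d (u, 0) = 0 := by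
    conv_lhs => rw [hk]
    rw [map_mul, map_mul, Module.End.mul_apply, Module.End.mul_apply, h1, map_zero]
  rw [C.act_d] at h3
  exact (Prod.ext_iff.1 h3).2

/-- **The step `e = q - 1`, injectivity**: no condition on the strata. -/
theorem inj_curve {a : V} (ha : a ∈ ker C.G ⊓ ker C.r) (hr : a ∈ range C.δ) : a = 0 := by
  obtain ⟨u, rfl⟩ := hr
  refine C.polarised u fun u' => ?_
  rw [← C.transpose, mem_ker.1 (Submodule.mem_inf.1 ha).1]
  simp

/-- **The step `e = q - 1`**: the identity of `V = ⊕ H¹(Z)` induces an isomorphism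
of the `E₂` terms `ker G ⊓ ker r` and `ker r / range δ`. -/
theorem bij_curve (hL : C.LefInj) : Bij (ker C.G ⊓ ker C.r) (ker C.r) (range C.δ) := by
  have := C.finV
  have hker : ∀ a, a ∈ ker C.G ↔ ∀ u, C.BV a (C.δ u) = 0 := by
    intro a
    rw [mem_ker]
    constructor
    · intro h u
      rw [← C.transpose, h]
      simp
    · intro h
      apply hL
      intro u
      rw [C.transpose, h]
  have halt : C.BV.IsAlt := C.altV
  have href : C.BV.IsRefl := halt.isRefl
  have hnd : (LinearMap.BilinForm.restrict C.BV (range C.δ)).Nondegenerate := by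
    have hleft : ∀ m : range C.δ, (∀ n : range C.δ,
        LinearMap.BilinForm.restrict C.BV (range C.δ) m n = 0) → m = 0 := by
      rintro ⟨x, u, rfl⟩ h
      apply Subtype.ext
      apply C.polarised u
      intro u'
      exact h ⟨C.δ u', u', rfl⟩
    refine ⟨hleft, fun n h => hleft n fun m => ?_⟩
    exact href _ _ (h m)
  have hcompl := LinearMap.BilinForm.isCompl_orthogonal_of_restrict_nondegenerate href hnd
  refine ⟨inf_le_right, fun a ha hr => C.inj_curve ha hr, ?_⟩
  · intro v hvr
    have hv : v ∈ range C.δ ⊔ BilinForm.orthogonal C.BV (range C.δ) := by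
      rw [hcompl.sup_eq_top]
      trivial
    obtain ⟨y, hy, z, hz, rfl⟩ := Submodule.mem_sup.1 hv
    have hzk : z ∈ ker C.G := by
      rw [hker]
      intro u
      apply href
      exact hz _ ⟨u, rfl⟩
    have hyr : C.r y = 0 := by
      obtain ⟨u, rfl⟩ := hy
      exact C.r_δ u
    have hzr : z ∈ ker C.r := by
      rw [mem_ker] at hvr ⊢
      rwa [map_add, hyr, zero_add] at hvr
    exact ⟨z, Submodule.mem_inf.2 ⟨hzk, hzr⟩, by rwa [add_sub_cancel_right]⟩

end RosatiData

end Pool.Agent.MP_f8720a_ag
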