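import Pool.Agent.Lib.MP_f8720a_ag.Curve

/-!
An example of `RosatiData` in which both `E₂` terms are nonzero: the data of one elliptic curve;
`δ u = (u, u, 0)`, `r (v₁, v₂, v₃) = v₁ - v₂`, `G (v₁, v₂, v₃) = v₁ + v₂`.
-/

namespace Pool.Agent.MP_f8720a_ag

open LinearMap Matrix

section

variable (F : Type) [Field F]

/-- the plane, the first cohomology of an elliptic curve -/
abbrev Pl : Type := Fin 2 → F

/-- the standard alternating form of the plane -/
def plane : Pl F →ₗ[F] Pl F →ₗ[F] F :=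
  LinearMap.mk₂ F (fun u v => u 0 * v 1 - u 1 * v 0)
    (fun u u' v => by simp only [Pi.add_apply]; ring)
    (fun c u v => by simp only [Pi.smul_apply, smul_eq_mul]; ring)
    (fun u v v' => by simp only [Pi.add_apply]; ring)
    (fun c u v => by simp only [Pi.smul_apply, smul_eq_mul]; ring)

theorem plane_apply (u v : Pl F) : plane F u v = u 0 * v 1 - u 1 * v 0 := rfl

theorem plane_nondeg (u : Pl F) (h : ∀ v, plane F u v = 0) : u = 0 := by
  have h0 := h ![0, 1]
  have h1 := h ![1, 0]
  rw [plane_apply] at h0 h1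
  simp at h0 h1
  funext i
  fin_cases i
  · exact h0
  · exact h1

/-- three copies of the plane -/
abbrev Pl3 : Type := Pl F × (Pl F × Pl F)

/-- the sum of the alternating forms of three planes -/
def plane3 : Pl3 F →ₗ[F] Pl3 F →ₗ[F] F :=
  LinearMap.mk₂ F (fun u v => plane F u.1 v.1 + plane F u.2.1 v.2.1 + plane F u.2.2 v.2.2)
    (fun u u' v => by simp only [Prod.fst_add, Prod.snd_add, map_add, LinearMap.add_apply]; ring)
    (fun c u v => by
      simp only [Prod.smul_fst, Prod.smul_snd, map_smul, LinearMap.smul_apply, smul_eq_mul]; ring)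
    (fun u v v' => by simp only [Prod.fst_add, Prod.snd_add, map_add]; ring)
    (fun c u v => by
      simp only [Prod.smul_fst, Prod.smul_snd, map_smul, smul_eq_mul]; ring)

theorem plane3_apply (u v : Pl3 F) :
    plane3 F u v = plane F u.1 v.1 + plane F u.2.1 v.2.1 + plane F u.2.2 v.2.2 := rfl

/-- the map `u ↦ (u, u, 0)` -/
def resPl : Pl F →ₗ[F] Pl3 F :=
  LinearMap.prod LinearMap.id (LinearMap.prod LinearMap.id 0)

/-- the map `v ↦ v₁ - v₂` -/
def diffPl : Pl3 F →ₗ[F] Pl F :=
  LinearMap.fst F (Pl F) (Pl F × Pl F) -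
    (LinearMap.fst F (Pl F) (Pl F)).comp (LinearMap.snd F (Pl F) (Pl F × Pl F))

/-- the map `v ↦ v₁ + v₂` -/
def sumPl : Pl3 F →ₗ[F] Pl F :=
  LinearMap.fst F (Pl F) (Pl F × Pl F) +
    (LinearMap.fst F (Pl F) (Pl F)).comp (LinearMap.snd F (Pl F) (Pl F × Pl F))

end

variable (F : Type) [Field F] [CharZero F]

/-- matrices act on four copies of the plane -/
def matAct : Matrix (Fin 4) (Fin 4) ℚ →+* Module.End F (Pl F × Pl3 F) where
  toFun m :=
    { toFun := fun w =>
        ((m 0 0 : F) • w.1 + (m 0 1 : F) • w.2.1 + (m 0 2 : F) • w.2.2.1 + (m 0 3 : F) • w.2.2.2,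
          (m 1 0 : F) • w.1 + (m 1 1 : F) • w.2.1 + (m 1 2 : F) • w.2.2.1 + (m 1 3 : F) • w.2.2.2,
          (m 2 0 : F) • w.1 + (m 2 1 : F) • w.2.1 + (m 2 2 : F) • w.2.2.1 + (m 2 3 : F) • w.2.2.2,
          (m 3 0 : F) • w.1 + (m 3 1 : F) • w.2.1 + (m 3 2 : F) • w.2.2.1 + (m 3 3 : F) • w.2.2.2)
      map_add' := fun w w' => by
        ext i <;> simp <;> ring
      map_smul' := fun c w => by
        ext i <;> simp <;> ring }
  map_one' := by
    ext w i <;> simp
  map_mul' m m' := by
    ext w i <;> simp [Matrix.mul_apply, Fin.sum_univ_four] <;> ring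
  map_zero' := by
    ext w i <;> simp
  map_add' m m' := by
    ext w i <;> simp [add_mul]

theorem matAct_apply (m : Matrix (Fin 4) (Fin 4) ℚ) (w : Pl F × Pl3 F) :
    matAct F m w =
      ((m 0 0 : F) • w.1 + (m 0 1 : F) • w.2.1 + (m 0 2 : F) • w.2.2.1 + (m 0 3 : F) • w.2.2.2,
        (m 1 0 : F) • w.1 + (m 1 1 : F) • w.2.1 + (m 1 2 : F) • w.2.2.1 + (m 1 3 : F) • w.2.2.2,
        (m 2 0 : F) • w.1 + (m 2 1 : F) • w.2.1 + (m 2 2 : F) • w.2.2.1 + (m 2 3 : F) • w.2.2.2,
        (m 3 0 : F) • w.1 + (m 3 1 : F) • w.2.1 + (m 3 2 : F) • w.2.2.1 + (m 3 3 : F) • w.2.2.2) :=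
  rfl

/-- the example -/
def exampleCurve :
    RosatiData F (Matrix (Fin 4) (Fin 4) ℚ) (Pl F) (Pl3 F) (Pl F) (Pl F) where
  finE := inferInstance
  τ := Matrix.traceLinearMap (Fin 4) ℚ ℚ
  pos x hx := by
    have h1 : Matrix.traceLinearMap (Fin 4) ℚ ℚ (x * star x) = ∑ i, ∑ j, x i j ^ 2 := by
      rw [Matrix.traceLinearMap_apply, Matrix.trace]
      refine Finset.sum_congr rfl fun i _ => ?_
      rw [Matrix.diag_apply, Matrix.mul_apply]
      refine Finset.sum_congr rfl fun j _ => ?_
      rw [Matrix.star_apply, star_trivial, sq]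
    rw [h1]
    have h2 : ∀ i, 0 ≤ ∑ j, x i j ^ 2 := fun i => Finset.sum_nonneg fun j _ => sq_nonneg _
    obtain ⟨i, j, hij⟩ : ∃ i j, x i j ≠ 0 := by
      by_contra hcon
      push Not at hcon
      exact hx (by ext i j; exact hcon i j)
    refine lt_of_lt_of_le ?_ (Finset.single_le_sum (f := fun i => ∑ j, x i j ^ 2)
      (fun i _ => h2 i) (Finset.mem_univ i))
    refine lt_of_lt_of_le (by positivity : 0 < x i j ^ 2)
      (Finset.single_le_sum (f := fun j => x i j ^ 2) (fun j _ => sq_nonneg _) (Finset.mem_univ j))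
  finV := inferInstance
  act := matAct F
  BU := plane F
  BV := plane3 F
  altV v := by
    rw [plane3_apply, plane_apply, plane_apply, plane_apply]
    ring
  nondegU u h := plane_nondeg F u h
  nondegV u h := by
    apply Prod.ext
    · apply plane_nondeg
      intro v
      have := h (v, 0, 0)
      rwa [plane3_apply, map_zero, map_zero, add_zero, add_zero] at this
    · apply Prod.ext
      · apply plane_nondeg
        intro v
        have := h (0, v, 0)
        rwa [plane3_apply, map_zero, map_zero, zero_add, add_zero] at this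
      · apply plane_nondeg
        intro v
        have := h (0, 0, v)
        rwa [plane3_apply, map_zero, map_zero, zero_add, zero_add] at this
  rosati f w w' := by
    simp only [matAct_apply, plane3_apply, plane_apply, Matrix.star_apply, Pi.add_apply,
      Pi.smul_apply, smul_eq_mul, star_trivial]
    ring
  δ := resPl F
  d := !![0, 0, 0, 0; 1, 0, 0, 0; 1, 0, 0, 0; 0, 0, 0, 0]
  act_d w := by
    rw [matAct_apply]
    simp [resPl]
  r := diffPl F
  r_δ u := by
    simp [resPl, diffPl]
  cup := plane F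
  G := sumPl F
  transpose v u := by
    simp [sumPl, resPl, plane3_apply]

theorem exampleCurve_lefInj : (exampleCurve F).LefInj := fun _ h => plane_nondeg F _ h

/-- both `E₂` terms of the example are nonzero -/
theorem exampleCurve_ker :
    ∃ x ∈ ker (exampleCurve F).G ⊓ ker (exampleCurve F).r, x ∉ range (exampleCurve F).δ := by
  refine ⟨(0, 0, fun _ => 1), ?_, ?_⟩
  · rw [Submodule.mem_inf, mem_ker, mem_ker]
    constructor
    · change sumPl F _ = 0
      simp [sumPl]
    · change diffPl F _ = 0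
      simp [diffPl]
  · rintro ⟨u, hu⟩
    change resPl F u = _ at hu
    have h2 := congrFun (Prod.ext_iff.1 (Prod.ext_iff.1 hu).2).2 0
    simp [resPl] at h2

end Pool.Agent.MP_f8720a_ag
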