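import Mathlib

/-!
# Outer steps of the weight filtration of a projective SNCL scheme: definitions

`Strata` records the components of the multiple intersections of the smooth components,
`Numbers` their intersection numbers, `IsPolarised` the laws which these numbers obey.
-/

namespace Pool.Agent.MP_f8720a_ag

/-- The strata. `K m` is the (finite) set of connected components `Z` of the intersections
of `m + 1` different smooth components; `idx m Z` is the increasing list of the numbers of the
`m + 1` smooth components that contain `Z`; `face m i Z` is the stratum of `K m` that contains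
`Z` and lies on all of these except the one at place `i`. -/
structure Strata where
  K : ℕ → Type
  fin : ∀ m, Fintype (K m)
  idx : ∀ m, K m → (Fin (m + 1) ↪o ℕ)
  face : ∀ m, Fin (m + 2) → K (m + 1) → K m
  idx_face : ∀ (m : ℕ) (i : Fin (m + 2)) (Z : K (m + 1)) (t : Fin (m + 1)),
    idx m (face m i Z) t = idx (m + 1) Z (i.succAbove t)
  face_face : ∀ (m : ℕ) (j k : Fin (m + 2)), j ≤ k → ∀ W : K (m + 2),
    face m j (face (m + 1) k.succ W) = face m k (face (m + 1) j.castSucc W)

namespace Strata

variable (S : Strata)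

instance (m : ℕ) : Fintype (S.K m) := S.fin m

/-- `W` is a divisor of `Z`. -/
def Sub (m : ℕ) (W : S.K (m + 1)) (Z : S.K m) : Prop := ∃ k, S.face m k W = Z

/-- The strata that are divisors of `Y`: the pairs `(i, Z)` with `face i Z = Y`. -/
def Over (m : ℕ) (Y : S.K m) : Type := {p : Fin (m + 2) × S.K (m + 1) // S.face m p.1 p.2 = Y}

noncomputable instance (m : ℕ) (Y : S.K m) : Fintype (S.Over m Y) :=
  Fintype.ofInjective (fun p : S.Over m Y => p.1) Subtype.val_injective

/-- The coboundary `(delta a)_W = sum_k (-1)^k a(face k W)` of the dual complex. -/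
def delta (F : Type) [Field F] (m : ℕ) : (S.K m → F) →ₗ[F] (S.K (m + 1) → F) where
  toFun a W := ∑ k : Fin (m + 2), (-1) ^ (k : ℕ) * a (S.face m k W)
  map_add' a b := by
    funext W
    simp [mul_add, Finset.sum_add_distrib]
  map_smul' c a := by
    funext W
    simp only [Pi.smul_apply, smul_eq_mul, RingHom.id_apply, Finset.mul_sum]
    refine Finset.sum_congr rfl fun k _ => ?_
    ring

/-- The Gysin image of a cochain `a`: on `Y` it is the divisor `sum (-1)^i a_Z [Z]` over the
pairs `(i, Z)` with `face i Z = Y`, here given by its coefficients. -/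
def gysin (F : Type) [Field F] (m : ℕ) (a : S.K (m + 1) → F) (Y : S.K m) : S.Over m Y → F :=
  fun p => (-1) ^ (p.1.1 : ℕ) * a p.1.2

/-- The cocycles on `K q`, `q = m + 1`. -/
def cocyc (F : Type) [Field F] (m : ℕ) : Submodule F (S.K (m + 1) → F) :=
  LinearMap.ker (S.delta F (m + 1))

/-- The coboundaries on `K q`, `q = m + 1`; so `E_2^{q,0}` is `cocyc` modulo `cobd`. -/
def cobd (F : Type) [Field F] (m : ℕ) : Submodule F (S.K (m + 1) → F) :=
  LinearMap.range (S.delta F m)

end Strata

/-- The intersection numbers for a fixed ample class `A`: `vol m Z` is the degree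
`A ^ dim Z` of the stratum `Z`, and `slf m i Z` is the number `A ^ (dim Y - 2) . Z . Z`
on `Y = face m i Z` (zero if `Y` is a curve). -/
structure Numbers (S : Strata) where
  vol : ∀ m, S.K m → ℚ
  slf : ∀ m, Fin (m + 2) → S.K (m + 1) → ℚ

namespace Numbers

variable {S : Strata} (D : Numbers S)

open Classical in
/-- The degrees of the divisors `W` of `Z` that are also divisors of `Z'`, added up. -/
noncomputable def common (m : ℕ) (Z Z' : S.K (m + 1)) : ℚ :=
  ∑ W : S.K (m + 2), if S.Sub (m + 1) W Z ∧ S.Sub (m + 1) W Z' then D.vol (m + 2) W else 0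

open Classical in
/-- `A ^ (dim Y - 2) . Z . Z'` on `Y`: different divisors of `Y` meet transversally in the
strata contained in both. -/
noncomputable def inter (m : ℕ) (Y : S.K m) (p p' : S.Over m Y) : ℚ :=
  if p = p' then D.slf m p.1.1 p.1.2 else D.common m p.1.2 p'.1.2

/-- The laws of the intersection numbers of a projective SNCL scheme: degrees are positive;
the sum of the self-intersections of `Z` in all `Y` containing it is minus the sum of its
divisors `W` (as the product of the normal bundles of `Z` is trivialised by the log point);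
the Hodge index inequality `A ^ dim Y * (A ^ (dim Y - 2) . x . x) ≤ (A ^ (dim Y - 1) . x) ^ 2`
for the divisors `x = sum x_p [Z_p]` on `Y`. -/
structure IsPolarised : Prop where
  vol_pos : ∀ m Z, 0 < D.vol m Z
  slf_sum : ∀ (m : ℕ) (Z : S.K (m + 1)), ∑ i : Fin (m + 2), D.slf m i Z = - D.common m Z Z
  index : ∀ (m : ℕ) (Y : S.K m) (x : S.Over m Y → ℚ),
    D.vol m Y * ∑ p, ∑ p', x p * x p' * D.inter m Y p p' ≤
      (∑ p, x p * D.vol (m + 1) p.1.2) ^ 2

/-- The divisor `x` on `Y`, with coefficients in `F`, is numerically trivial (equivalently, by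
the Hodge index theorem and Matsusaka's theorem, its class in the second cohomology of `Y` is
zero): its degree is zero, and so is its intersection with all strata. -/
def Triv (F : Type) [Field F] (m : ℕ) (Y : S.K m) (x : S.Over m Y → F) : Prop :=
  ∑ p, x p * (D.vol (m + 1) p.1.2 : F) = 0 ∧ ∀ p', ∑ p, x p * (D.inter m Y p p' : F) = 0

/-- The cochain `a` on `K q`, `q = m + 1`, is a cocycle with trivial Gysin image. -/
def Harm (F : Type) [Field F] (m : ℕ) (a : S.K (m + 1) → F) : Prop :=
  S.delta F (m + 1) a = 0 ∧ ∀ Y, D.Triv F m Y (S.gysin F m a Y)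

theorem harm_zero (F : Type) [Field F] (m : ℕ) : D.Harm F m 0 := by
  refine ⟨map_zero _, fun Y => ⟨?_, fun p' => ?_⟩⟩ <;> simp [Strata.gysin]

theorem harm_add (F : Type) [Field F] (m : ℕ) {a b : S.K (m + 1) → F} (h : D.Harm F m a)
    (h' : D.Harm F m b) : D.Harm F m (a + b) := by
  obtain ⟨ha, ha'⟩ := h
  obtain ⟨hb, hb'⟩ := h'
  refine ⟨by rw [map_add, ha, hb, add_zero], fun Y => ⟨?_, fun p' => ?_⟩⟩
  · have h1 := (ha' Y).1
    have h2 := (hb' Y).1
    simp only [Strata.gysin, Pi.add_apply, mul_add, add_mul, Finset.sum_add_distrib] at h1 h2 ⊢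
    rw [h1, h2, add_zero]
  · have h1 := (ha' Y).2 p'
    have h2 := (hb' Y).2 p'
    simp only [Strata.gysin, Pi.add_apply, mul_add, add_mul, Finset.sum_add_distrib] at h1 h2 ⊢
    rw [h1, h2, add_zero]

theorem harm_smul (F : Type) [Field F] (m : ℕ) (c : F) {a : S.K (m + 1) → F}
    (h : D.Harm F m a) : D.Harm F m (c • a) := by
  obtain ⟨ha, ha'⟩ := h
  have key : ∀ (Y : S.K m) (r : S.Over m Y → F),
      ∑ p : S.Over m Y, S.gysin F m (c • a) Y p * r p = c * ∑ p, S.gysin F m a Y p * r p := by
    intro Y r
    rw [Finset.mul_sum]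
    refine Finset.sum_congr rfl fun p _ => ?_
    simp only [Strata.gysin, Pi.smul_apply, smul_eq_mul]
    ring
  refine ⟨by rw [map_smul, ha, smul_zero], fun Y => ⟨?_, fun p' => ?_⟩⟩
  · rw [key Y fun p => (D.vol (m + 1) p.1.2 : F), (ha' Y).1, mul_zero]
  · rw [key Y fun p => (D.inter m Y p p' : F), (ha' Y).2 p', mul_zero]

/-- `E_2^{-q,2q}`, `q = m + 1`: the cocycles on `K q` with trivial Gysin image. -/
def harm (F : Type) [Field F] (m : ℕ) : Submodule F (S.K (m + 1) → F) where
  carrier := {a | D.Harm F m a}
  zero_mem' := D.harm_zero F m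
  add_mem' := D.harm_add F m
  smul_mem' := D.harm_smul F m

end Numbers

/-- For subspaces `T`, `Z`, `B` of a space of cochains: `T` is contained in `Z`, and the map
`T → Z / B` induced by the identity is bijective. -/
def Bij {F C : Type} [Field F] [AddCommGroup C] [Module F C] (T Z B : Submodule F C) : Prop :=
  T ≤ Z ∧ (∀ t ∈ T, t ∈ B → t = 0) ∧ ∀ z ∈ Z, ∃ t ∈ T, z - t ∈ B

end Pool.Agent.MP_f8720a_ag
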