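import Pool.Agent.Lib.MP_f8720a_ag.Coef

/-!
# An example: a degenerate abelian surface with three components

Three components `0, 1, 2` (surfaces), each the plane blown up in three points, whose boundary is a
hexagon of curves of self-intersection `-1`; two components meet in three curves, and there are six
triple points. The dual complex is the torus `ℤ[ω] / (1 - ω)` with its triangles: the curve `(c, j)`
goes from the component `c` to the component `c + 1` in the direction `ω ^ j`, and the triple
point `(b, e)` lies on the curves `(c, ± (c - e))`. The ample class has degree one on all curves.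
The cohomology of the dual complex in the degrees one and two is not zero.
-/

namespace Pool.Agent.MP_f8720a_ag

namespace Torus

/-- The strata: three surfaces, nine curves, six points. -/
def K : ℕ → Type
  | 0 => Fin 3
  | 1 => Fin 3 × Fin 3
  | 2 => Bool × Fin 3
  | _ + 3 => Empty

instance fin : ∀ m, Fintype (K m)
  | 0 => inferInstanceAs (Fintype (Fin 3))
  | 1 => inferInstanceAs (Fintype (Fin 3 × Fin 3))
  | 2 => inferInstanceAs (Fintype (Bool × Fin 3))
  | _ + 3 => inferInstanceAs (Fintype Empty)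

instance dec : ∀ m, DecidableEq (K m)
  | 0 => inferInstanceAs (DecidableEq (Fin 3))
  | 1 => inferInstanceAs (DecidableEq (Fin 3 × Fin 3))
  | 2 => inferInstanceAs (DecidableEq (Bool × Fin 3))
  | _ + 3 => inferInstanceAs (DecidableEq Empty)

/-- The numbers of the components that contain a stratum. -/
def num : ∀ m, K m → Fin (m + 1) → ℕ
  | 0 => fun v _ => (show Fin 3 from v : Fin 3)
  | 1 => fun Z => ![![0, 1], ![1, 2], ![0, 2]] (show Fin 3 × Fin 3 from Z).1
  | 2 => fun _ => ![0, 1, 2]
  | _ + 3 => fun Z => (show Empty from Z).elim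

theorem num_mono : ∀ m (Z : K m), StrictMono (num m Z)
  | 0 => by
    intro Z i j hij
    exact absurd hij (by omega)
  | 1 => by
    intro Z
    rw [Fin.strictMono_iff_lt_succ]
    revert Z
    show ∀ Z : Fin 3 × Fin 3, _
    decide
  | 2 => by
    intro Z
    rw [Fin.strictMono_iff_lt_succ]
    revert Z
    show ∀ Z : Bool × Fin 3, _
    decide
  | _ + 3 => fun Z => (show Empty from Z).elim

/-- The second index of the curve `(c, _)` through the triple point `T`. -/
def leg (T : Bool × Fin 3) (c : Fin 3) : Fin 3 := if T.1 then c - T.2 else T.2 - c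

/-- The faces. -/
def face : ∀ m, Fin (m + 2) → K (m + 1) → K m
  | 0 => fun i Z =>
    (![![1, 0], ![2, 1], ![2, 0]] : Fin 3 → Fin 2 → Fin 3) (show Fin 3 × Fin 3 from Z).1 i
  | 1 => fun i T => ((![1, 2, 0] : Fin 3 → Fin 3) i, leg T ((![1, 2, 0] : Fin 3 → Fin 3) i))
  | _ + 2 => fun _ Z => (show Empty from Z).elim

theorem num_face : ∀ (m : ℕ) (i : Fin (m + 2)) (Z : K (m + 1)) (t : Fin (m + 1)),
    num m (face m i Z) t = num (m + 1) Z (i.succAbove t)
  | 0 => by
    show ∀ (i : Fin 2) (Z : Fin 3 × Fin 3) (t : Fin 1), _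
    decide
  | 1 => by
    show ∀ (i : Fin 3) (Z : Bool × Fin 3) (t : Fin 2), _
    decide
  | _ + 2 => fun _ Z => (show Empty from Z).elim

theorem face_face : ∀ (m : ℕ) (j k : Fin (m + 2)), j ≤ k → ∀ W : K (m + 2),
    face m j (face (m + 1) k.succ W) = face m k (face (m + 1) j.castSucc W)
  | 0 => by
    show ∀ (j k : Fin 2), j ≤ k → ∀ W : Bool × Fin 3, (_ : Fin 3) = _
    decide
  | _ + 1 => fun _ _ _ W => (show Empty from W).elim

/-- The six curves on the component `v`, in cyclic order. -/
def ring (v : Fin 3) (a : Fin 6) : Fin 2 × (Fin 3 × Fin 3) :=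
  let c : Fin 3 := if a.1 % 2 = 0 then v else v - 1
  (if (![1, 2, 2] : Fin 3 → Fin 3) c = v then 0 else 1, (c, (![0, 2, 1, 0, 2, 1] : Fin 6 → Fin 3) a))

theorem ring_face : ∀ v a, face 0 (ring v a).1 (ring v a).2 = v := by
  show ∀ (v : Fin 3) (a : Fin 6), (face 0 (ring v a).1 (ring v a).2 : Fin 3) = v
  decide

theorem ring_inj : ∀ v a b, ring v a = ring v b → a = b := by
  decide

theorem ring_surj : ∀ (v : Fin 3) (p : Fin 2 × (Fin 3 × Fin 3)),
    (face 0 p.1 p.2 : Fin 3) = v → ∃ a, ring v a = p := by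
  decide

/-- Two neighbours on the hexagon meet in one point, the others do not meet. -/
theorem ring_inter : ∀ (v : Fin 3) (a b : Fin 6), a ≠ b →
    (∑ W : Bool × Fin 3, if (∃ k : Fin 3, ((face 1 k W : Fin 3 × Fin 3) = (ring v a).2)) ∧
      (∃ k : Fin 3, ((face 1 k W : Fin 3 × Fin 3) = (ring v b).2)) then 1 else 0 : ℕ) =
      if b = a + 1 ∨ a = b + 1 then 1 else 0 := by
  decide

theorem two_points : ∀ Z : Fin 3 × Fin 3,
    (∑ W : Bool × Fin 3, if (∃ k : Fin 3, ((face 1 k W : Fin 3 × Fin 3) = Z)) then 1 else 0 : ℕ) =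
      2 := by
  decide

end Torus

/-- The strata of the example. -/
def torus : Strata where
  K := Torus.K
  fin := Torus.fin
  idx m Z := OrderEmbedding.ofStrictMono (Torus.num m Z) (Torus.num_mono m Z)
  face := Torus.face
  idx_face m i Z t := Torus.num_face m i Z t
  face_face := Torus.face_face

/-- The intersection numbers of the example: the degree of a component is six, of a curve one. -/
def torusNumbers : Numbers torus where
  vol m _ := if m = 0 then 6 else 1
  slf m _ _ := if m = 0 then -1 else 0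

theorem hexagon (y : Fin 6 → ℚ) :
    6 * ∑ a, ∑ b, y a * y b *
      (if a = b then -1 else if b = a + 1 ∨ a = b + 1 then 1 else 0 : ℚ) ≤ (∑ a, y a) ^ 2 := by
  have hM : (fun a b : Fin 6 => (if a = b then -1 else if b = a + 1 ∨ a = b + 1 then 1 else 0 : ℚ)) =
      fun a b => (![![-1, 1, 0, 0, 0, 1], ![1, -1, 1, 0, 0, 0], ![0, 1, -1, 1, 0, 0],
        ![0, 0, 1, -1, 1, 0], ![0, 0, 0, 1, -1, 1], ![1, 0, 0, 0, 1, -1]] : Fin 6 → Fin 6 → ℚ) a b := by
    funext a b
    fin_cases a <;> fin_cases b <;> rfl
  have hM' : ∀ a b : Fin 6,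
      (if a = b then -1 else if b = a + 1 ∨ a = b + 1 then 1 else 0 : ℚ) = _ := fun a b =>
    congrFun (congrFun hM a) b
  simp only [hM', Fin.sum_univ_six, Matrix.cons_val]
  nlinarith [sq_nonneg (y 0 + y 3 - (y 1 + y 4)), sq_nonneg (y 1 + y 4 - (y 2 + y 5)),
    sq_nonneg (y 2 + y 5 - (y 0 + y 3)), sq_nonneg (y 0 - y 3 - (y 1 - y 4) + (y 2 - y 5))]

theorem torus_index (v : torus.K 0) (x : torus.Over 0 v → ℚ) :
    torusNumbers.vol 0 v * ∑ p, ∑ p', x p * x p' * torusNumbers.inter 0 v p p' ≤
      (∑ p, x p * torusNumbers.vol 1 p.1.2) ^ 2 := by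
  classical
  let e0 : Fin 6 → torus.Over 0 v := fun a => ⟨Torus.ring v a, Torus.ring_face v a⟩
  have he0 : Function.Bijective e0 := by
    constructor
    · intro a b h
      exact Torus.ring_inj v a b (congrArg Subtype.val h)
    · rintro ⟨p, hp⟩
      obtain ⟨a, ha⟩ := Torus.ring_surj v p hp
      exact ⟨a, Subtype.ext ha⟩
  let e : Fin 6 ≃ torus.Over 0 v := Equiv.ofBijective e0 he0
  have hM : ∀ a b, torusNumbers.inter 0 v (e a) (e b) =
      if a = b then -1 else if b = a + 1 ∨ a = b + 1 then 1 else 0 := by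
    intro a b
    unfold Numbers.inter
    by_cases hab : a = b
    · rw [if_pos (by rw [hab]), if_pos hab]
      rfl
    · rw [if_neg (fun h => hab (e.injective h)), if_neg hab]
      have h1 := Torus.ring_inter v a b hab
      have h2 : (((∑ W : Bool × Fin 3, if (∃ k : Fin 3, ((Torus.face 1 k W : Fin 3 × Fin 3) =
          (Torus.ring v a).2)) ∧ (∃ k : Fin 3, ((Torus.face 1 k W : Fin 3 × Fin 3) =
          (Torus.ring v b).2)) then 1 else 0 : ℕ)) : ℚ) =
          ((if b = a + 1 ∨ a = b + 1 then 1 else 0 : ℕ) : ℚ) := by rw [h1]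
      push_cast at h2
      rw [← h2]
      exact Finset.sum_congr rfl fun W _ => if_congr Iff.rfl rfl rfl
  have h1 : ∑ p, ∑ p', x p * x p' * torusNumbers.inter 0 v p p' =
      ∑ a, ∑ b, x (e a) * x (e b) *
        (if a = b then -1 else if b = a + 1 ∨ a = b + 1 then 1 else 0) := by
    rw [← e.sum_comp]
    refine Finset.sum_congr rfl fun a _ => ?_
    rw [← e.sum_comp]
    exact Finset.sum_congr rfl fun b _ => by rw [hM]
  have h2 : ∑ p, x p * torusNumbers.vol 1 p.1.2 = ∑ a, x (e a) := by
    rw [← e.sum_comp]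
    exact Finset.sum_congr rfl fun a _ => by simp [torusNumbers]
  rw [h1, h2]
  have h3 : torusNumbers.vol 0 v = 6 := rfl
  rw [h3]
  exact hexagon fun a => x (e a)

theorem torus_polarised : torusNumbers.IsPolarised where
  vol_pos m Z := by
    show (0 : ℚ) < if m = 0 then 6 else 1
    split_ifs <;> norm_num
  slf_sum
    | 0, Z => by
      classical
      have h1 := Torus.two_points Z
      have h2 : (((∑ W : Bool × Fin 3, if (∃ k : Fin 3, ((Torus.face 1 k W : Fin 3 × Fin 3) =
          Z)) then 1 else 0 : ℕ)) : ℚ) = 2 := by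
        rw [h1]
        norm_num
      push_cast at h2
      have h3 : (∑ i : Fin 2, torusNumbers.slf 0 i Z) = -2 := by
        rw [Fin.sum_univ_two]
        show (-1 : ℚ) + -1 = -2
        norm_num
      refine h3.trans ?_
      rw [← h2]
      congr 1
      exact Finset.sum_congr rfl fun W _ => if_congr and_self_iff.symm rfl rfl
    | 1, Z => by
      have h3 : (∑ i : Fin 3, torusNumbers.slf 1 i Z) = 0 := Finset.sum_eq_zero fun i _ => rfl
      refine h3.trans ?_
      symm
      rw [neg_eq_zero]
      exact Finset.sum_eq_zero fun W _ => (show Empty from W).elim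
    | _ + 2, Z => (show Empty from Z).elim
  index
    | 0, Y, x => torus_index Y x
    | 1, Y, x => by
      have h : ∀ p p', torusNumbers.inter 1 Y p p' = 0 := by
        intro p p'
        unfold Numbers.inter
        split_ifs with h
        · rfl
        · exact Finset.sum_eq_zero fun W _ => (show Empty from W).elim
      simp only [h, mul_zero, Finset.sum_const_zero]
      positivity
    | _ + 2, Y, x => by
      rw [Finset.sum_eq_zero fun p _ => (show Empty from p.1.2).elim, mul_zero]
      positivity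

theorem Strata.cocyc_not_le (S : Strata) (F : Type) [Field F] (m : ℕ)
    (a : S.K (m + 1) → F) (ha : S.delta F (m + 1) a = 0) (hb : ∀ b, S.delta F m b ≠ a) :
    ¬ S.cocyc F m ≤ S.cobd F m := by
  intro h
  have ha' : a ∈ S.cocyc F m := ha
  obtain ⟨b, hb'⟩ := h ha'
  exact hb b hb'

/-- The first cohomology of the dual complex of the example is not zero. -/
theorem torus_H1 (F : Type) [Field F] [CharZero F] : ¬ torus.cocyc F 0 ≤ torus.cobd F 0 := by
  let a0 : Fin 3 × Fin 3 → ℤ := fun Z =>
    (![1, 1, -1] : Fin 3 → ℤ) Z.1 * (![1, -1, 0] : Fin 3 → ℤ) Z.2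
  refine torus.cocyc_not_le F 0 (fun Z => (a0 Z : F)) ?_ fun b hb => ?_
  · have h1 : ∀ W : Bool × Fin 3, (∑ k : Fin 3, (-1) ^ (k : ℕ) * a0 (Torus.face 1 k W) : ℤ) = 0 := by
      decide
    funext W
    have h2 := congrArg (Int.cast : ℤ → F) (h1 W)
    push_cast at h2
    exact h2
  · have h1 := congrFun hb ((0, 0) : Fin 3 × Fin 3)
    have h2 := congrFun hb ((0, 1) : Fin 3 × Fin 3)
    have h3 : (torus.delta F 0 b) ((0, 0) : Fin 3 × Fin 3) =
      (torus.delta F 0 b) ((0, 1) : Fin 3 × Fin 3) := rfl
    rw [h3, h2] at h1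
    have h4 : (a0 (0, 1) : F) = (a0 (0, 0) : F) := h1
    have h5 : a0 (0, 1) = a0 (0, 0) := by exact_mod_cast h4
    revert h5
    decide

/-- The second cohomology of the dual complex of the example is not zero. -/
theorem torus_H2 (F : Type) [Field F] [CharZero F] : ¬ torus.cocyc F 1 ≤ torus.cobd F 1 := by
  refine torus.cocyc_not_le F 1 (fun T => if (show Bool × Fin 3 from T).1 then (1 : F) else -1)
    ?_ fun b hb => ?_
  · funext W
    exact (show Empty from W).elim
  · have key : ∀ T : Bool × Fin 3, (∑ k : Fin 3, (-1) ^ (k : ℕ) * b (Torus.face 1 k T) : F) =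
        if T.1 then 1 else -1 := fun T => congrFun hb T
    simp only [Fin.sum_univ_three] at key
    have t1 := key (true, 0)
    have t2 := key (true, 1)
    have t3 := key (true, 2)
    have f1 := key (false, 0)
    have f2 := key (false, 1)
    have f3 := key (false, 2)
    simp only [Fin.val_zero, Fin.val_one, Fin.val_two, pow_zero, one_mul, pow_one, neg_mul,
      if_true] at t1 t2 t3 f1 f2 f3
    let c : Fin 3 × Fin 3 → F := b
    change c (1, 1) + -c (2, 2) + (-1) ^ 2 * c (0, 0) = 1 at t1
    change c (1, 0) + -c (2, 1) + (-1) ^ 2 * c (0, 2) = 1 at t2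
    change c (1, 2) + -c (2, 0) + (-1) ^ 2 * c (0, 1) = 1 at t3
    change c (1, 2) + -c (2, 1) + (-1) ^ 2 * c (0, 0) = if false = true then 1 else -1 at f1
    change c (1, 0) + -c (2, 2) + (-1) ^ 2 * c (0, 1) = if false = true then 1 else -1 at f2
    change c (1, 1) + -c (2, 0) + (-1) ^ 2 * c (0, 2) = if false = true then 1 else -1 at f3
    rw [if_neg Bool.false_ne_true] at f1 f2 f3
    have h6 : (6 : F) = 0 := by linear_combination f1 + f2 + f3 - t1 - t2 - t3
    exact (by norm_num : (6 : F) ≠ 0) h6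

/-- The outermost terms of the example are not zero. -/
theorem torus_harm (F : Type) [Field F] [CharZero F] (m : ℕ) (hm : m < 2) :
    torusNumbers.harm F m ≠ ⊥ := by
  intro h
  obtain ⟨_, _, h3⟩ := torusNumbers.bij_harm (F := F) torus_polarised m
  have h4 : torus.cocyc F m ≤ torus.cobd F m := by
    intro z hz
    obtain ⟨t, ht, hzt⟩ := h3 z hz
    rw [h, Submodule.mem_bot] at ht
    rwa [ht, sub_zero] at hzt
  interval_cases m
  · exact torus_H1 F h4
  · exact torus_H2 F h4

end Pool.Agent.MP_f8720a_ag
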