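import Mathlib

/-!
# Totally isotropic subspaces and simple Frobenius eigenvalues

`Φ` is the Frobenius on a part `P` of a cohomology group, `B` a form, nondegenerate on `P`, with
`B (Φ x) (Φ y) = c B x y`. If the eigenvalues of `Φ` on `P` are simple, a totally isotropic
`Φ`-stable subspace `K` of `P` is zero, provided that it carries a nondegenerate form `B'` of its
own with `B' (Φ x) (Φ y) = c B' x y`: otherwise `K` would occur in `P` and in the quotient of `P` by
the orthogonal of `K`.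
-/

namespace Pool.Agent.MP_f8720a_ag

open Polynomial

/-- `B` is nondegenerate on the `Φ`-stable subspace `P`, and the eigenvalues of `Φ` on `P` are
simple: `P` is generated over `F[Φ]` by one vector `x₀`, which is killed by `χ(Φ)` for a separable
polynomial `χ`. -/
structure MultOne {F V : Type} [Field F] [AddCommGroup V] [Module F V] (Φ : Module.End F V)
    (B : V →ₗ[F] V →ₗ[F] F) (P : Submodule F V) where
  stable : ∀ x ∈ P, Φ x ∈ P
  nondeg : ∀ y ∈ P, (∀ x ∈ P, B x y = 0) → y = 0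
  x₀ : V
  mem : x₀ ∈ P
  cyclic : ∀ x ∈ P, ∃ p : F[X], aeval Φ p x₀ = x
  χ : F[X]
  ann : aeval Φ χ x₀ = 0
  sep : χ.Separable

namespace MultOne

variable {F V : Type} [Field F] [AddCommGroup V] [Module F V] {Φ : Module.End F V}
  {B B' : V →ₗ[F] V →ₗ[F] F} {P : Submodule F V}

/-- a stable subspace is stable under all polynomials in `Φ` -/
private theorem aeval_mem {K : Submodule F V} (hK : ∀ x ∈ K, Φ x ∈ K) (p : F[X]) {x : V}
    (hx : x ∈ K) : aeval Φ p x ∈ K := by
  induction p using Polynomial.induction_on' with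
  | add p q hp hq =>
    rw [map_add, LinearMap.add_apply]
    exact K.add_mem hp hq
  | monomial n a =>
    rw [aeval_monomial, Module.End.mul_apply, Module.algebraMap_end_apply]
    refine K.smul_mem _ ?_
    induction n with
    | zero => exact hx
    | succ n ih =>
      rw [pow_succ', Module.End.mul_apply]
      exact hK _ ih

private theorem pow_mem {K : Submodule F V} (hK : ∀ x ∈ K, Φ x ∈ K) (n : ℕ) {x : V}
    (hx : x ∈ K) : (Φ ^ n) x ∈ K := by
  have h := aeval_mem hK (X ^ n) hx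
  rwa [map_pow, aeval_X] at h

private theorem sim_pow {c : F} {K : Submodule F V} (hK : ∀ x ∈ K, Φ x ∈ K)
    (hs : ∀ x ∈ K, ∀ y ∈ K, B (Φ x) (Φ y) = c * B x y) (n : ℕ) :
    ∀ x ∈ K, ∀ y ∈ K, B ((Φ ^ n) x) ((Φ ^ n) y) = c ^ n * B x y := by
  induction n with
  | zero =>
    intro x _ y _
    simp
  | succ n ih =>
    intro x hx y hy
    rw [pow_succ', Module.End.mul_apply, Module.End.mul_apply,
      hs _ (pow_mem hK n hx) _ (pow_mem hK n hy), ih x hx y hy, pow_succ]
    ring

/-- the reciprocal polynomial -/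
private noncomputable def recip (c : F) (h : F[X]) : F[X] :=
  ∑ i ∈ Finset.range (h.natDegree + 1), C (h.coeff i * c ^ i) * X ^ (h.natDegree - i)

/-- the reciprocal polynomial is the adjoint -/
private theorem adj {c : F} {K : Submodule F V} (hK : ∀ x ∈ K, Φ x ∈ K)
    (hs : ∀ x ∈ K, ∀ y ∈ K, B (Φ x) (Φ y) = c * B x y) (h : F[X]) {x w : V} (hx : x ∈ K)
    (hw : w ∈ K) :
    B x (aeval Φ (recip c h) w) = B (aeval Φ h x) ((Φ ^ h.natDegree) w) := by
  have h1 : aeval Φ h x = ∑ i ∈ Finset.range (h.natDegree + 1), h.coeff i • (Φ ^ i) x := by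
    rw [aeval_eq_sum_range, LinearMap.sum_apply]
    rfl
  have h2 : aeval Φ (recip c h) w = ∑ i ∈ Finset.range (h.natDegree + 1),
      (h.coeff i * c ^ i) • (Φ ^ (h.natDegree - i)) w := by
    rw [recip, map_sum, LinearMap.sum_apply]
    refine Finset.sum_congr rfl fun i _ => ?_
    rw [map_mul, aeval_C, map_pow, aeval_X, Module.End.mul_apply, Module.algebraMap_end_apply]
  rw [h1, h2, map_sum, map_sum, LinearMap.sum_apply]
  refine Finset.sum_congr rfl fun i hi => ?_
  have hi' : i ≤ h.natDegree := Nat.lt_succ_iff.1 (Finset.mem_range.1 hi)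
  have h3 : (Φ ^ h.natDegree) w = (Φ ^ i) ((Φ ^ (h.natDegree - i)) w) := by
    rw [← Module.End.mul_apply, ← pow_add, Nat.add_sub_cancel' hi']
  rw [map_smul, map_smul, LinearMap.smul_apply, h3,
    sim_pow hK hs i x hx _ (pow_mem hK _ hw), smul_eq_mul, smul_eq_mul]
  ring

/-- A `Φ`-stable totally isotropic subspace `K` of `P` with a nondegenerate form `B'` of its own is
zero. -/
theorem eq_bot (S : MultOne Φ B P) {c : F} (hc : c ≠ 0)
    (hsim : ∀ x ∈ P, ∀ y ∈ P, B (Φ x) (Φ y) = c * B x y) (K : Submodule F V)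
    [FiniteDimensional F K] (hKP : K ≤ P) (hK : ∀ x ∈ K, Φ x ∈ K)
    (hiso : ∀ x ∈ K, ∀ y ∈ K, B x y = 0)
    (hsim' : ∀ x ∈ K, ∀ y ∈ K, B' (Φ x) (Φ y) = c * B' x y)
    (hnd' : ∀ y ∈ K, (∀ x ∈ K, B' x y = 0) → y = 0) : K = ⊥ := by
  let I : Ideal F[X] :=
    { carrier := {p | aeval Φ p S.x₀ ∈ K}
      add_mem' := fun {p q} hp hq => by
        show aeval Φ (p + q) S.x₀ ∈ K
        rw [map_add, LinearMap.add_apply]
        exact K.add_mem hp hq
      zero_mem' := by
        show aeval Φ 0 S.x₀ ∈ K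
        rw [map_zero]
        exact K.zero_mem
      smul_mem' := fun p q hq => by
        show aeval Φ (p • q) S.x₀ ∈ K
        rw [smul_eq_mul, map_mul, Module.End.mul_apply]
        exact aeval_mem hK p hq }
  obtain ⟨h, hI⟩ := (IsPrincipalIdealRing.principal I).principal
  have hIm : ∀ p, aeval Φ p S.x₀ ∈ K ↔ h ∣ p := by
    intro p
    have h1 : p ∈ I ↔ h ∣ p := by
      rw [hI, ← Ideal.mem_span_singleton]
    exact h1
  -- `χ = h g`, with `h` and `g` coprime
  obtain ⟨g, hg⟩ : h ∣ S.χ := (hIm _).1 (by rw [S.ann]; exact K.zero_mem)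
  have hcop : IsCoprime h g := by
    have h1 := S.sep
    rw [hg] at h1
    exact h1.isCoprime
  -- `h(Φ)` maps `P` to `K`, `g(Φ)` kills `K`
  have hhK : ∀ x ∈ P, aeval Φ h x ∈ K := by
    intro x hx
    obtain ⟨p, rfl⟩ := S.cyclic x hx
    rw [← Module.End.mul_apply, ← map_mul]
    exact (hIm _).2 (dvd_mul_right h p)
  have hgK : ∀ y ∈ K, aeval Φ g y = 0 := by
    intro y hy
    obtain ⟨p, rfl⟩ := S.cyclic y (hKP hy)
    obtain ⟨r, rfl⟩ := (hIm p).1 hy
    have h1 : g * (h * r) = r * S.χ := by rw [hg]; ring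
    rw [← Module.End.mul_apply, ← map_mul, h1, map_mul, Module.End.mul_apply, S.ann, map_zero]
  -- so does the reciprocal of `g`
  have hgK' : ∀ y ∈ K, aeval Φ (recip c g) y = 0 := by
    intro y hy
    refine hnd' _ (aeval_mem hK _ hy) fun x hx => ?_
    rw [adj hK hsim' g hx hy, hgK x hx, map_zero, LinearMap.zero_apply]
  -- `Φ` is bijective on `K`
  have hinj : ∀ x ∈ P, Φ x = 0 → x = 0 := by
    intro x hx h0
    refine S.nondeg x hx fun z hz => ?_
    have h1 := hsim z hz x hx
    rw [h0, map_zero] at h1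
    exact (mul_eq_zero.1 h1.symm).resolve_left hc
  have hsurj : ∀ n : ℕ, ∀ y ∈ K, ∃ y' ∈ K, (Φ ^ n) y' = y := by
    let L : K →ₗ[F] K := Φ.restrict hK
    have hL : Function.Injective L := by
      rw [injective_iff_map_eq_zero]
      rintro ⟨x, hx⟩ h0
      apply Subtype.ext
      exact hinj x (hKP hx) (congrArg Subtype.val h0)
    have hL' : Function.Surjective L := LinearMap.surjective_of_injective hL
    intro n
    induction n with
    | zero => exact fun y hy => ⟨y, hy, rfl⟩
    | succ n ih =>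
      intro y hy
      obtain ⟨y₁, hy₁, rfl⟩ := ih y hy
      obtain ⟨⟨y₂, hy₂⟩, h2⟩ := hL' ⟨y₁, hy₁⟩
      refine ⟨y₂, hy₂, ?_⟩
      rw [pow_succ, Module.End.mul_apply]
      exact congrArg (Φ ^ n) (congrArg Subtype.val h2)
  rw [Submodule.eq_bot_iff]
  intro y hy
  refine S.nondeg y (hKP hy) fun x hx => ?_
  obtain ⟨u, v, huv⟩ := hcop
  have h1 : x = aeval Φ h (aeval Φ u x) + aeval Φ g (aeval Φ v x) := by
    rw [← Module.End.mul_apply, ← Module.End.mul_apply, ← map_mul, ← map_mul,
      ← LinearMap.add_apply, ← map_add, mul_comm h u, mul_comm g v, huv, map_one,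
      Module.End.one_apply]
  have h2 : B (aeval Φ h (aeval Φ u x)) y = 0 := hiso _ (hhK _ (aeval_mem S.stable _ hx)) _ hy
  have h3 : B (aeval Φ g (aeval Φ v x)) y = 0 := by
    obtain ⟨y', hy', rfl⟩ := hsurj g.natDegree y hy
    rw [← adj S.stable hsim g (aeval_mem S.stable _ hx) (hKP hy'), hgK' y' hy', map_zero]
  rw [h1, map_add, LinearMap.add_apply, h2, h3, add_zero]

end MultOne

end Pool.Agent.MP_f8720a_ag
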