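import Pool.Agent.Lib.MP_f8720a_ag.Curve
import Pool.Agent.Lib.MP_f8720a_ag.Mult

/-!
The step `e = q - 1` for `q < d`: simple Frobenius eigenvalues on the third cohomology of the strata.

Let `z` be in the kernel of `r` and orthogonal to the image of `δ`. Its Gysin image `G z` is
primitive (its product with `A ^ (n - 2)` is zero), and `A ^ (n - 3) . G z . G v = 0` for all `v`,
since the square of the differential of the weight spectral sequence is zero. So the Gysin image of
all these `z` is a Frobenius-stable totally isotropic subspace of the primitive part of `⊕ H³(Y)`.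
Up to a Tate twist it is the Tate module of an abelian variety, since the Gysin map
`Pic⁰(Z) → H³(Y)` factors through the algebraic representative of the cycles of codimension two
(Murre), so it carries a nondegenerate form of its own.
-/

namespace Pool.Agent.MP_f8720a_ag

open LinearMap

section

variable {F E U V W T : Type} [Field F] [Ring E] [Algebra ℚ E] [StarRing E]
    [AddCommGroup U] [Module F U] [AddCommGroup V] [Module F V] [AddCommGroup W] [Module F W]
    [AddCommGroup T] [Module F T]

/-- The Gysin image of the intersection of the kernel of `r` and the orthogonal of the image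
of `δ`. -/
def RosatiData.core (C : RosatiData F E U V W T) : Submodule F T :=
  (ker C.r ⊓ ker (C.BV.compl₂ C.δ)).map C.G

/-- Frobenius and the products with `A ^ (n - 3)`, for the step `e = q - 1`.

* `ΦU`, `ΦV`, `ΦW`, `ΦT` is the Frobenius (of a finite field over which everything is defined; in
  general that of a specialisation) on `U = ⊕ H¹(Y)`, `V = ⊕ H¹(Z)`, `W = ⊕ H¹(C)`,
  `T = ⊕ H³(Y)`; `a = b` is the number `p` of elements of the field, and `c = p³`.
* `BT t t' = A ^ (n - 3) . t . t'` and `BW w w' = A ^ (n - 3) . w . w'` (zero if `n = 2`).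
* `BT_G`: `A ^ (n - 3) . G v . G v'` is the product on the strata `Z` of `v'` with the
  restriction of `G v`; as the square of the differential is zero, this restriction is minus the
  Gysin image of `r v`.
* `BK` is the Weil form on `core`, which is up to a Tate twist the Tate module of an abelian
  variety: the image of an abelian subvariety of the product of the `Pic⁰(Z)` in the product of
  the algebraic representatives of the cycles of codimension two of the strata `Y` (Murre). -/
structure FrobData (C : RosatiData F E U V W T) where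
  ΦU : Module.End F U
  ΦV : Module.End F V
  ΦW : Module.End F W
  ΦT : Module.End F T
  surj : Function.Surjective ΦU
  a : F
  b : F
  c : F
  c_ne : c ≠ 0
  δ_Φ : ∀ u, C.δ (ΦU u) = ΦV (C.δ u)
  r_Φ : ∀ v, C.r (ΦV v) = ΦW (C.r v)
  G_Φ : ∀ v, ΦT (C.G v) = a • C.G (ΦV v)
  BV_Φ : ∀ v v', C.BV (ΦV v) (ΦV v') = b * C.BV v v'
  BT : T →ₗ[F] T →ₗ[F] F
  BT_Φ : ∀ t t', BT (ΦT t) (ΦT t') = c * BT t t'
  BW : W →ₗ[F] W →ₗ[F] F
  BT_G : ∀ v v', BT (C.G v) (C.G v') = -BW (C.r v) (C.r v')
  BK : T →ₗ[F] T →ₗ[F] F
  BK_Φ : ∀ t ∈ C.core, ∀ t' ∈ C.core, BK (ΦT t) (ΦT t') = c * BK t t'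
  BK_nondeg : ∀ t' ∈ C.core, (∀ t ∈ C.core, BK t t' = 0) → t' = 0

end

variable {F E U V W T : Type} [Field F] [Ring E] [Algebra ℚ E] [StarRing E]
    [AddCommGroup U] [Module F U] [AddCommGroup V] [Module F V] [AddCommGroup W] [Module F W]
    [AddCommGroup T] [Module F T] {C : RosatiData F E U V W T}

private theorem mem_orth {v : V} : v ∈ ker C.r ⊓ ker (C.BV.compl₂ C.δ) ↔
    C.r v = 0 ∧ ∀ u, C.BV v (C.δ u) = 0 := by
  rw [Submodule.mem_inf, mem_ker, mem_ker]
  constructor
  · rintro ⟨h1, h2⟩
    exact ⟨h1, fun u => LinearMap.congr_fun h2 u⟩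
  · rintro ⟨h1, h2⟩
    exact ⟨h1, LinearMap.ext fun u => h2 u⟩

/-- The Gysin images in `core` are primitive. -/
theorem RosatiData.core_le (C : RosatiData F E U V W T) : C.core ≤ ker C.cup := by
  rintro _ ⟨x, hx, rfl⟩
  rw [mem_ker]
  ext u
  rw [C.transpose, (mem_orth.1 hx).2 u]
  rfl

/-- The identity of `V = ⊕ H¹(Z)` induces an isomorphism of the `E₂` terms if `core = 0`. -/
theorem RosatiData.bij_of_core (C : RosatiData F E U V W T) (h : C.core = ⊥) :
    Bij (ker C.G ⊓ ker C.r) (ker C.r) (range C.δ) := by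
  let C' : RosatiData F E U V W (Module.Dual F U) :=
    { finE := C.finE
      τ := C.τ
      pos := C.pos
      finV := C.finV
      act := C.act
      BU := C.BU
      BV := C.BV
      altV := C.altV
      nondegU := C.nondegU
      nondegV := C.nondegV
      rosati := C.rosati
      δ := C.δ
      d := C.d
      act_d := C.act_d
      r := C.r
      r_δ := C.r_δ
      cup := LinearMap.id
      G := C.BV.compl₂ C.δ
      transpose := fun _ _ => rfl }
  have h1 : C'.LefInj := fun v hv => LinearMap.ext fun u => hv u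
  have h2 : ker C'.G ⊓ ker C'.r = ker C.G ⊓ ker C.r := by
    ext v
    rw [Submodule.mem_inf, Submodule.mem_inf, mem_ker, mem_ker, mem_ker]
    constructor
    · rintro ⟨h3, h4⟩
      refine ⟨?_, h4⟩
      have h5 : C.G v ∈ C.core :=
        ⟨v, mem_orth.2 ⟨h4, fun u => LinearMap.congr_fun h3 u⟩, rfl⟩
      rw [h] at h5
      exact h5
    · rintro ⟨h3, h4⟩
      refine ⟨LinearMap.ext fun u => ?_, h4⟩
      have h5 := C.transpose v u
      rw [h3, map_zero] at h5
      exact h5.symm
  have h3 := C'.bij_curve h1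
  rw [h2] at h3
  exact h3

namespace FrobData

/-- If the eigenvalues of Frobenius are simple on a subspace `P` of `⊕ H³(Y)` which contains
`core` and on which the form `A ^ (n - 3) . t . t'` is nondegenerate, then `core = 0`. -/
theorem core_eq_bot (D : FrobData C) {P : Submodule F T} (hP : C.core ≤ P)
    (S : MultOne D.ΦT D.BT P) : C.core = ⊥ := by
  have := C.finV
  have hfin : FiniteDimensional F C.core := by
    unfold RosatiData.core
    infer_instance
  refine S.eq_bot D.c_ne (fun x _ y _ => D.BT_Φ x y) C.core hP ?_ ?_ D.BK_Φ D.BK_nondeg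
  · rintro _ ⟨x, hx, rfl⟩
    obtain ⟨h1, h2⟩ := mem_orth.1 hx
    rw [D.G_Φ]
    refine Submodule.smul_mem _ _ ⟨D.ΦV x, mem_orth.2 ⟨?_, fun u => ?_⟩, rfl⟩
    · rw [D.r_Φ, h1, map_zero]
    · obtain ⟨u, rfl⟩ := D.surj u
      rw [D.δ_Φ, D.BV_Φ, h2 u, mul_zero]
  · rintro _ ⟨x, hx, rfl⟩ _ ⟨y, _, rfl⟩
    rw [D.BT_G, (mem_orth.1 hx).1, map_zero, LinearMap.zero_apply, neg_zero]

/-- **The step `e = q - 1`**, `q < d`, for simple Frobenius eigenvalues on the third cohomology. -/
theorem bij (D : FrobData C) {P : Submodule F T} (hP : C.core ≤ P) (S : MultOne D.ΦT D.BT P) :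
    Bij (ker C.G ⊓ ker C.r) (ker C.r) (range C.δ) :=
  C.bij_of_core (D.core_eq_bot hP S)

end FrobData

end Pool.Agent.MP_f8720a_ag
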