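import Pool.Agent.Lib.MP_f8720a_ag.CurveEx
import Pool.Agent.Lib.MP_f8720a_ag.Frob

/-!
An example of `RosatiData` and `FrobData` over the real numbers in which both `E₂` terms are
nonzero, the Gysin image contains nonzero primitive classes (`LefInj` does not hold) and the
Frobenius eigenvalues `±i`, `(1 ± √-3) / 2` on the primitive part are simple (`MultOne`):
`δ u = (u, 0, 0)`, `r (v₁, v₂, v₃) = v₂`, `G (v₁, v₂, v₃) = (v₁, v₁, v₂)`.
-/

namespace Pool.Agent.MP_f8720a_ag

open LinearMap Matrix Polynomial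

section

variable (F : Type) [Field F]

/-- the map `(x, y) ↦ (-y, x + k y)` of the plane -/
def rot (k : F) : Module.End F (Pl F) where
  toFun v := ![-v 1, v 0 + k * v 1]
  map_add' u v := by
    funext i
    fin_cases i
    · simp
      ring
    · simp
      ring
  map_smul' c v := by
    funext i
    fin_cases i
    · simp
    · simp
      ring

theorem rot_apply (k : F) (v : Pl F) : rot F k v = ![-v 1, v 0 + k * v 1] := rfl

theorem rot_surj (k : F) : Function.Surjective (rot F k) := by
  intro v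
  refine ⟨![v 1 + k * v 0, -v 0], ?_⟩
  funext i
  fin_cases i
  · simp [rot_apply]
  · simp [rot_apply]

theorem plane_rot (k : F) (u v : Pl F) : plane F (rot F k u) (rot F k v) = plane F u v := by
  rw [plane_apply, plane_apply, rot_apply, rot_apply]
  simp only [cons_val_zero, cons_val_one]
  ring

/-- the map `u ↦ (u, 0, 0)` -/
def res1 : Pl F →ₗ[F] Pl3 F := LinearMap.prod LinearMap.id 0

/-- the map `v ↦ v₂` -/
def snd2 : Pl3 F →ₗ[F] Pl F := (LinearMap.fst F (Pl F) (Pl F)).comp (LinearMap.snd F (Pl F) (Pl F × Pl F))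

/-- the map `v ↦ (v₁, v₁, v₂)` -/
def gys3 : Pl3 F →ₗ[F] Pl3 F :=
  LinearMap.prod (LinearMap.fst F (Pl F) (Pl F × Pl F))
    (LinearMap.prod (LinearMap.fst F (Pl F) (Pl F × Pl F)) (snd2 F))

/-- the form `t₁ . t₁' - t₂ . t₂' - t₃ . t₃'` -/
def form3 : Pl3 F →ₗ[F] Pl3 F →ₗ[F] F :=
  LinearMap.mk₂ F (fun u v => plane F u.1 v.1 - plane F u.2.1 v.2.1 - plane F u.2.2 v.2.2)
    (fun u u' v => by simp only [Prod.fst_add, Prod.snd_add, map_add, LinearMap.add_apply]; ring)
    (fun c u v => by
      simp only [Prod.smul_fst, Prod.smul_snd, map_smul, LinearMap.smul_apply, smul_eq_mul]; ring)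
    (fun u v v' => by simp only [Prod.fst_add, Prod.snd_add, map_add]; ring)
    (fun c u v => by
      simp only [Prod.smul_fst, Prod.smul_snd, map_smul, smul_eq_mul]; ring)

theorem form3_apply (u v : Pl3 F) :
    form3 F u v = plane F u.1 v.1 - plane F u.2.1 v.2.1 - plane F u.2.2 v.2.2 := rfl

/-- three maps of the plane -/
def diag3 (k₁ k₂ k₃ : F) : Module.End F (Pl3 F) :=
  LinearMap.prodMap (rot F k₁) (LinearMap.prodMap (rot F k₂) (rot F k₃))

theorem diag3_apply (k₁ k₂ k₃ : F) (v : Pl3 F) :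
    diag3 F k₁ k₂ k₃ v = (rot F k₁ v.1, rot F k₂ v.2.1, rot F k₃ v.2.2) := rfl

end

/-- the example -/
def exampleFrob (F : Type) [Field F] [CharZero F] :
    RosatiData F (Matrix (Fin 4) (Fin 4) ℚ) (Pl F) (Pl3 F) (Pl F) (Pl3 F) :=
  { exampleCurve F with
    δ := res1 F
    d := !![0, 0, 0, 0; 1, 0, 0, 0; 0, 0, 0, 0; 0, 0, 0, 0]
    act_d := fun w => by
      change matAct F _ w = _
      rw [matAct_apply]
      simp [res1]
    r := snd2 F
    r_δ := fun u => by simp [res1, snd2]
    cup := (plane F).comp (LinearMap.fst F (Pl F) (Pl F × Pl F))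
    G := gys3 F
    transpose := fun v u => by
      change plane F v.1 u = plane3 F v (u, 0, 0)
      rw [plane3_apply]
      simp }

/-- In the example the Gysin image of the intersection of the kernel of `r` and the orthogonal of
the image of `δ` is zero. -/
theorem exampleFrob_core (F : Type) [Field F] [CharZero F] (t : Pl3 F)
    (ht : t ∈ (exampleFrob F).core) : t = 0 := by
  obtain ⟨x, hx, rfl⟩ := ht
  obtain ⟨h1, h2⟩ := Submodule.mem_inf.1 hx
  have h3 : x.2.1 = 0 := mem_ker.1 h1
  have h4 : x.1 = 0 := by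
    refine plane_nondeg F _ fun u => ?_
    have h5 := LinearMap.congr_fun (mem_ker.1 h2) u
    change plane3 F x (u, 0, 0) = 0 at h5
    rw [plane3_apply, map_zero, map_zero, add_zero, add_zero] at h5
    exact h5
  change ((x.1, x.1, x.2.1) : Pl3 F) = 0
  rw [h3, h4]
  rfl

/-- Frobenius in the example -/
def exampleFrobData (F : Type) [Field F] [CharZero F] : FrobData (exampleFrob F) where
  ΦU := rot F 0
  ΦV := diag3 F 0 1 0
  ΦW := rot F 1
  ΦT := diag3 F 0 0 1
  surj := rot_surj F 0
  a := 1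
  b := 1
  c := 1
  c_ne := one_ne_zero
  δ_Φ u := by
    change (rot F 0 u, (0 : Pl F), (0 : Pl F)) = (rot F 0 u, rot F 1 0, rot F 0 0)
    rw [map_zero, map_zero]
  r_Φ v := rfl
  G_Φ v := by
    rw [one_smul]
    rfl
  BV_Φ v v' := by
    change plane3 F _ _ = 1 * plane3 F v v'
    rw [plane3_apply, plane3_apply, diag3_apply, diag3_apply, plane_rot, plane_rot, plane_rot,
      one_mul]
  BT := form3 F
  BT_Φ t t' := by
    rw [form3_apply, form3_apply, diag3_apply, diag3_apply, plane_rot, plane_rot, plane_rot,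
      one_mul]
  BW := plane F
  BT_G v v' := by
    change form3 F (v.1, v.1, v.2.1) (v'.1, v'.1, v'.2.1) = -plane F v.2.1 v'.2.1
    rw [form3_apply]
    ring
  BK := 0
  BK_Φ _ _ _ _ := by simp
  BK_nondeg t' ht' _ := exampleFrob_core F t' ht'

theorem exampleFrob_prim (F : Type) [Field F] [CharZero F] (t : Pl3 F)
    (ht : t ∈ ker (exampleFrob F).cup) : t.1 = 0 :=
  plane_nondeg F _ fun v => LinearMap.congr_fun (mem_ker.1 ht) v

/-- `LefInj` does not hold in the example. -/
theorem exampleFrob_not_lefInj (F : Type) [Field F] [CharZero F] : ¬ (exampleFrob F).LefInj := by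
  intro h
  have h1 := h (0, fun _ => 1, 0) fun u => by
    change plane F 0 u = 0
    rw [map_zero]
    rfl
  have h2 : ((0 : Pl F), (0 : Pl F), (fun _ => 1 : Pl F)) = 0 := h1
  have h3 := congrFun (Prod.ext_iff.1 (Prod.ext_iff.1 h2).2).2 0
  simp at h3

/-- both `E₂` terms of the example are nonzero -/
theorem exampleFrob_ker (F : Type) [Field F] [CharZero F] :
    ∃ x ∈ ker (exampleFrob F).G ⊓ ker (exampleFrob F).r, x ∉ range (exampleFrob F).δ := by
  refine ⟨(0, 0, fun _ => 1), Submodule.mem_inf.2 ⟨mem_ker.2 ?_, mem_ker.2 ?_⟩, ?_⟩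
  · rfl
  · rfl
  · rintro ⟨u, hu⟩
    have h1 : ((u, 0, 0) : Pl3 F) = (0, 0, fun _ => 1) := hu
    have h2 := congrFun (Prod.ext_iff.1 (Prod.ext_iff.1 h1).2).2 0
    simp at h2

/-- the values of the polynomials of degree at most three in the Frobenius -/
private theorem aeval_ex (c₀ c₁ c₂ c₃ : ℝ) :
    aeval (diag3 ℝ 0 0 1) (C c₀ + C c₁ * X + C c₂ * X ^ 2 + C c₃ * X ^ 3 : ℝ[X])
      ((0, ![1, 0], ![1, 0]) : Pl3 ℝ) =
    (0, ![c₀ - c₂, c₁ - c₃], ![c₀ - c₂ - c₃, c₁ + c₂]) := by
  simp only [map_add, map_mul, aeval_C, aeval_X, LinearMap.add_apply,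
    Module.End.mul_apply, Module.algebraMap_end_apply, pow_succ, pow_zero, one_mul, diag3_apply,
    map_zero, rot_apply]
  refine Prod.ext ?_ (Prod.ext ?_ ?_)
  · simp
  · funext i
    fin_cases i
    · simp
      ring
    · simp
      ring
  · funext i
    fin_cases i
    · simp
      ring
    · simp

/-- The Frobenius eigenvalues on the primitive part are simple. -/
noncomputable def exampleMultOne :
    MultOne (exampleFrobData ℝ).ΦT (exampleFrobData ℝ).BT (ker (exampleFrob ℝ).cup) where
  stable x hx := by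
    have h1 := exampleFrob_prim ℝ x hx
    rw [mem_ker]
    ext u
    change plane ℝ (rot ℝ 0 x.1) _ = 0
    rw [h1, map_zero, map_zero]
    rfl
  nondeg y hy h := by
    have h1 := exampleFrob_prim ℝ y hy
    have h2 : ∀ x₂ x₃ : Pl ℝ, -plane ℝ x₂ y.2.1 - plane ℝ x₃ y.2.2 = 0 := by
      intro x₂ x₃
      have h3 := h (0, x₂, x₃) (by
        rw [mem_ker]
        ext u
        change plane ℝ 0 _ = 0
        rw [map_zero]
        rfl)
      change form3 ℝ (0, x₂, x₃) y = 0 at h3
      rw [form3_apply, map_zero, LinearMap.zero_apply, zero_sub] at h3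
      exact h3
    have halt : ∀ u v : Pl ℝ, plane ℝ u v = -plane ℝ v u := by
      intro u v
      rw [plane_apply, plane_apply]
      ring
    refine Prod.ext h1 (Prod.ext ?_ ?_)
    · refine plane_nondeg ℝ _ fun v => ?_
      have h3 := h2 v 0
      rw [map_zero, LinearMap.zero_apply, sub_zero, halt, neg_neg] at h3
      exact h3
    · refine plane_nondeg ℝ _ fun v => ?_
      have h3 := h2 0 v
      rw [map_zero, LinearMap.zero_apply, neg_zero, zero_sub, halt, neg_neg] at h3
      exact h3
  x₀ := (0, ![1, 0], ![1, 0])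
  mem := by
    rw [mem_ker]
    ext u
    change plane ℝ 0 _ = 0
    rw [map_zero]
    rfl
  cyclic x hx := by
    have h1 := exampleFrob_prim ℝ x hx
    refine ⟨C (x.2.2 1 - x.2.1 1 + x.2.2 0) + C (x.2.1 0 + x.2.1 1 - x.2.2 0) * X +
      C (x.2.2 0 + x.2.2 1 - x.2.1 0 - x.2.1 1) * X ^ 2 + C (x.2.1 0 - x.2.2 0) * X ^ 3, ?_⟩
    refine (aeval_ex _ _ _ _).trans ?_
    refine Prod.ext h1.symm (Prod.ext ?_ ?_)
    · funext i
      fin_cases i
      · simp
        ring
      · simp
    · funext i
      fin_cases i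
      · simp
        ring
      · simp
        ring
  χ := (X ^ 2 + 1) * (X ^ 2 - X + 1)
  ann := by
    change aeval (diag3 ℝ 0 0 1) _ ((0, ![1, 0], ![1, 0]) : Pl3 ℝ) = 0
    simp only [map_add, map_sub, map_mul, map_one, aeval_X, LinearMap.add_apply,
      LinearMap.sub_apply, Module.End.mul_apply, Module.End.one_apply, pow_succ, pow_zero,
      one_mul, diag3_apply, map_zero, rot_apply]
    refine Prod.ext ?_ (Prod.ext ?_ ?_)
    · simp
    · funext i
      fin_cases i
      · simp
      · simp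
    · funext i
      fin_cases i
      · simp
      · simp
  sep := by
    refine ⟨C (1 / 3) + C (23 / 6) * X - C (10 / 3) * X ^ 2,
      -C (2 / 3) + C (5 / 6) * X - C (7 / 6) * X ^ 2 + C (5 / 6) * X ^ 3, ?_⟩
    have h1 : derivative ((X ^ 2 + 1) * (X ^ 2 - X + 1) : ℝ[X]) =
        C 4 * X ^ 3 - C 3 * X ^ 2 + C 4 * X - 1 := by
      simp only [derivative_mul, derivative_add, derivative_sub, derivative_X_pow, derivative_X,
        derivative_one]
      simp only [Nat.cast_ofNat, map_ofNat]
      ring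
    rw [h1]
    have h2 : ∀ x : ℝ, (C x : ℝ[X]) = C x := fun _ => rfl
    apply Polynomial.funext
    intro x
    simp only [eval_add, eval_sub, eval_mul, eval_neg, eval_pow, eval_X, eval_C, eval_one]
    ring

/-- The theorem applies to the example. -/
theorem example_bij : Bij (ker (exampleFrob ℝ).G ⊓ ker (exampleFrob ℝ).r)
    (ker (exampleFrob ℝ).r) (range (exampleFrob ℝ).δ) :=
  (exampleFrobData ℝ).bij (exampleFrob ℝ).core_le exampleMultOne

end Pool.Agent.MP_f8720a_ag
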