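import Pool.Agent.Lib.MP_f8720a_ag.Steps

/-!
# Injective steps and dimensions
-/

namespace Pool.Agent.MP_f8720a_ag

section

variable {F H : Type} [Field F] [AddCommGroup H] [Module F H] {N : Module.End F H}

theorem Induces.half {P : ℤ → Submodule F H} (hP : ∀ k, (P k).map N ≤ P (k - 2)) {q : ℤ}
    {e : ℕ} {C : Type} [AddCommGroup C] [Module F C] {T Z B : Submodule F C}
    (w : Induces N P q e T Z B) (hTZ : T ≤ Z) (hinj : ∀ t ∈ T, t ∈ B → t = 0) :
    ∀ x ∈ P (q + e), (N ^ e) x ∈ P (q - e - 1) → x ∈ P (q + e - 1) := by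
  have hmem : ∀ x ∈ P (q + e), (N ^ e) x ∈ P (q - e) := by
    intro x hx
    have := pow_mem N P hP e _ x hx
    rwa [show q + (e : ℤ) - 2 * e = q - e by ring] at this
  intro x hx hNx
  set t := w.grTop (Submodule.Quotient.mk ⟨x, hx⟩) with ht
  have h1 := w.pow ⟨x, hx⟩ ⟨_, hmem x hx⟩ ⟨t, hTZ t.2⟩ rfl rfl
  have h2 : (Submodule.Quotient.mk ⟨(N ^ e) x, hmem x hx⟩ : Gr P (q - e)) = 0 :=
    (Submodule.Quotient.mk_eq_zero _).2 hNx
  rw [h2, map_zero] at h1
  have h3 := (smul_eq_zero.1 h1.symm).resolve_left w.sgn_ne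
  have h3' := (Submodule.Quotient.mk_eq_zero _).1 h3
  have h4 : t = 0 := Subtype.ext (hinj _ t.2 h3')
  rw [ht] at h4
  have h5 := (map_eq_zero_iff _ w.grTop.injective).1 h4
  have h6 := (Submodule.Quotient.mk_eq_zero _).1 h5
  exact h6

/-- The map `gr_(q+e) → gr_(q-e)` induced by `N ^ e`. -/
noncomputable def stepMap (P : ℤ → Submodule F H) (hP : ∀ k, (P k).map N ≤ P (k - 2)) (q : ℤ)
    (e : ℕ) : Gr P (q + e) →ₗ[F] Gr P (q - e) :=
  Submodule.mapQ _ _
    ((N ^ e).restrict (p := P (q + e)) (q := P (q - e)) (by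
      intro x hx
      have := pow_mem N P hP e _ x hx
      rwa [show q + (e : ℤ) - 2 * e = q - e by ring] at this)) (by
    intro x hx
    have := pow_mem N P hP e _ (x : H) hx
    rw [show q + (e : ℤ) - 1 - 2 * e = q - e - 1 by ring] at this
    exact this)

theorem stepMap_mk (P : ℤ → Submodule F H) (hP : ∀ k, (P k).map N ≤ P (k - 2)) (q : ℤ)
    (e : ℕ) (x : P (q + e)) (h : (N ^ e) x ∈ P (q - e)) :
    stepMap P hP q e (Submodule.Quotient.mk x) = Submodule.Quotient.mk ⟨(N ^ e) x, h⟩ := rfl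

theorem stepIso_iff (P : ℤ → Submodule F H) (hP : ∀ k, (P k).map N ≤ P (k - 2)) (q : ℤ)
    (e : ℕ) : StepIso N P q e ↔ Function.Bijective (stepMap P hP q e) := by
  have hmem : ∀ x ∈ P (q + e), (N ^ e) x ∈ P (q - e) := by
    intro x hx
    have := pow_mem N P hP e _ x hx
    rwa [show q + (e : ℤ) - 2 * e = q - e by ring] at this
  constructor
  · rintro ⟨h1, h2⟩
    constructor
    · rw [injective_iff_map_eq_zero]
      intro g hg
      obtain ⟨⟨x, hx⟩, rfl⟩ := Submodule.Quotient.mk_surjective _ g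
      rw [stepMap_mk P hP q e ⟨x, hx⟩ (hmem x hx)] at hg
      have h3 := (Submodule.Quotient.mk_eq_zero _).1 hg
      exact (Submodule.Quotient.mk_eq_zero _).2 (h1 x hx h3)
    · intro g
      obtain ⟨⟨y, hy⟩, rfl⟩ := Submodule.Quotient.mk_surjective _ g
      obtain ⟨x, hx, hxy⟩ := h2 y hy
      refine ⟨Submodule.Quotient.mk ⟨x, hx⟩, ?_⟩
      rw [stepMap_mk P hP q e ⟨x, hx⟩ (hmem x hx), eq_comm, Submodule.Quotient.eq]
      exact hxy
  · rintro ⟨h1, h2⟩
    constructor
    · intro x hx hNx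
      have h3 : stepMap P hP q e (Submodule.Quotient.mk ⟨x, hx⟩) = 0 := by
        rw [stepMap_mk P hP q e ⟨x, hx⟩ (hmem x hx)]
        exact (Submodule.Quotient.mk_eq_zero _).2 hNx
      have h4 := (map_eq_zero_iff _ h1).1 h3
      have h5 := (Submodule.Quotient.mk_eq_zero _).1 h4
      exact h5
    · intro y hy
      obtain ⟨g, hg⟩ := h2 (Submodule.Quotient.mk ⟨y, hy⟩)
      obtain ⟨⟨x, hx⟩, rfl⟩ := Submodule.Quotient.mk_surjective _ g
      rw [stepMap_mk P hP q e ⟨x, hx⟩ (hmem x hx), eq_comm, Submodule.Quotient.eq] at hg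
      exact ⟨x, hx, hg⟩

/-- An injective step is an isomorphism if and only if the dimensions agree. -/
theorem Induces.iff_finrank {P : ℤ → Submodule F H} (hP : ∀ k, (P k).map N ≤ P (k - 2)) {q : ℤ}
    {e : ℕ} {C : Type} [AddCommGroup C] [Module F C] [FiniteDimensional F C]
    {T Z B : Submodule F C} (w : Induces N P q e T Z B) (hTZ : T ≤ Z)
    (hinj : ∀ t ∈ T, t ∈ B → t = 0) :
    StepIso N P q e ↔ Module.finrank F (Gr P (q + e)) = Module.finrank F (Gr P (q - e)) := by
  have i1 : FiniteDimensional F (Gr P (q + e)) := w.grTop.symm.finiteDimensional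
  have i2 : FiniteDimensional F (Gr P (q - e)) := w.grBot.symm.finiteDimensional
  rw [stepIso_iff P hP]
  constructor
  · intro h
    exact (LinearEquiv.ofBijective _ h).finrank_eq
  · intro h
    have h1 : Function.Injective (stepMap P hP q e) := by
      rw [injective_iff_map_eq_zero]
      intro g hg
      obtain ⟨⟨x, hx⟩, rfl⟩ := Submodule.Quotient.mk_surjective _ g
      have hmem : (N ^ e) x ∈ P (q - e) := by
        have := pow_mem N P hP e _ x hx
        rwa [show q + (e : ℤ) - 2 * e = q - e by ring] at this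
      rw [stepMap_mk P hP q e ⟨x, hx⟩ hmem] at hg
      have h3 := (Submodule.Quotient.mk_eq_zero _).1 hg
      exact (Submodule.Quotient.mk_eq_zero _).2 (w.half hP hTZ hinj x hx h3)
    exact ⟨h1, (LinearMap.injective_iff_surjective_of_finrank_eq_finrank h).1 h1⟩

end

end Pool.Agent.MP_f8720a_ag
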