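import Pool.Agent.Lib.MP_f8720a_ag.Comb

/-!
# The key identity
-/

namespace Pool.Agent.MP_f8720a_ag

namespace Strata

variable (S : Strata)

/-- Signed coefficient. -/
def cf (m : ℕ) (a : S.K (m + 1) → ℚ) (x : Fin (m + 2) × S.K (m + 1)) : ℚ :=
  (-1) ^ (x.1 : ℕ) * a x.2

open Classical in
/-- Sum over all pairs of places of two divisors. -/
noncomputable def hh (m : ℕ) (a : S.K (m + 1) → ℚ) (Z Z' : S.K (m + 1)) : ℚ :=
  ∑ i : Fin (m + 2), ∑ i' : Fin (m + 2),
    if S.face m i' Z' = S.face m i Z then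
      (if ((i, Z) : Fin (m + 2) × S.K (m + 1)) ≠ (i', Z') then S.cf m a (i, Z) * S.cf m a (i', Z')
        else 0) else 0

open Classical in
theorem hh_pair (m : ℕ) (a : S.K (m + 1) → ℚ) (W : S.K (m + 2)) (k k' : Fin (m + 3)) :
    S.hh m a (S.face (m + 1) k W) (S.face (m + 1) k' W) =
      if k = k' then 0 else
        - (((-1) ^ (k : ℕ) * a (S.face (m + 1) k W)) *
            ((-1) ^ (k' : ℕ) * a (S.face (m + 1) k' W))) := by
  by_cases hk : k = k'
  · subst hk
    rw [if_pos rfl, hh]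
    refine Finset.sum_eq_zero fun i _ => Finset.sum_eq_zero fun i' _ => ?_
    by_cases h : S.face m i' (S.face (m + 1) k W) = S.face m i (S.face (m + 1) k W)
    · have := S.face_inj m _ h
      subst this
      simp
    · rw [if_neg h]
  · rw [if_neg hk, hh]
    obtain ⟨i₀, hi₀⟩ := Fin.exists_succAbove_eq (Ne.symm hk)
    obtain ⟨i₁, hi₁⟩ := Fin.exists_succAbove_eq hk
    have hiff := S.face_face_iff m W k k' hk i₀ i₁ hi₀ hi₁
    have hne : S.face (m + 1) k W ≠ S.face (m + 1) k' W := fun h => hk (S.face_inj (m + 1) W h)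
    rw [Finset.sum_eq_single i₀, Finset.sum_eq_single i₁]
    · rw [if_pos ((hiff i₀ i₁).2 ⟨rfl, rfl⟩).symm, if_pos]
      · have := sign_pair m k k' hk i₀ i₁ hi₀ hi₁
        simp only [cf]
        linear_combination (a (S.face (m + 1) k W) * a (S.face (m + 1) k' W)) * this
      · intro h
        exact hne (congrArg Prod.snd h)
    · intro i' _ hi'
      rw [if_neg]
      intro h
      exact hi' ((hiff i₀ i').1 h.symm).2
    · intro h
      exact absurd (Finset.mem_univ _) h
    · intro i _ hi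
      refine Finset.sum_eq_zero fun i' _ => ?_
      rw [if_neg]
      intro h
      exact hi ((hiff i i').1 h.symm).1
    · intro h
      exact absurd (Finset.mem_univ _) h

end Strata

namespace Numbers

variable {S : Strata} (D : Numbers S)

/-- Degree of a divisor on `Y`. -/
noncomputable def dg (m : ℕ) (Y : S.K m) (x : S.Over m Y → ℚ) : ℚ :=
  ∑ p, x p * D.vol (m + 1) p.1.2

/-- Self-intersection of a divisor on `Y`. -/
noncomputable def sq (m : ℕ) (Y : S.K m) (x : S.Over m Y → ℚ) : ℚ :=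
  ∑ p, ∑ p', x p * x p' * D.inter m Y p p'

open Classical in
/-- The contribution of the pairs of different divisors. -/
noncomputable def off (m : ℕ) (a : S.K (m + 1) → ℚ) (x x' : Fin (m + 2) × S.K (m + 1)) : ℚ :=
  if x ≠ x' then S.cf m a x * S.cf m a x' * D.common m x.2 x'.2 else 0

theorem sq_gysin (m : ℕ) (a : S.K (m + 1) → ℚ) (Y : S.K m) :
    D.sq m Y (S.gysin ℚ m a Y) =
      ∑ p : S.Over m Y, (a p.1.2 * a p.1.2 * D.slf m p.1.1 p.1.2 +
        ∑ p' : S.Over m Y, D.off m a p.1 p'.1) := by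
  classical
  rw [sq]
  refine Finset.sum_congr rfl fun p _ => ?_
  have : ∀ p' : S.Over m Y,
      S.gysin ℚ m a Y p * S.gysin ℚ m a Y p' * D.inter m Y p p' =
      (if p' = p then a p.1.2 * a p.1.2 * D.slf m p.1.1 p.1.2
        else 0) + D.off m a p.1 p'.1 := by
    intro p'
    by_cases h : p' = p
    · subst h
      rw [if_pos rfl, inter, if_pos rfl, off, if_neg (fun h => h rfl), add_zero]
      have : ((-1 : ℚ) ^ (p'.1.1 : ℕ)) * (-1) ^ (p'.1.1 : ℕ) = 1 := by
        rw [← mul_pow]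
        simp
      simp only [Strata.gysin]
      linear_combination (a p'.1.2 * a p'.1.2 * D.slf m p'.1.1 p'.1.2) * this
    · have h' : p.1 ≠ p'.1 := fun e => h (Subtype.ext e.symm)
      have h'' : p ≠ p' := fun e => h e.symm
      rw [if_neg h, off, if_pos h', inter, if_neg h'', zero_add]
      rfl
  rw [Finset.sum_congr rfl fun p' _ => this p', Finset.sum_add_distrib,
    Finset.sum_ite_eq' Finset.univ p, if_pos (Finset.mem_univ p)]

theorem diag_sum (hD : D.IsPolarised) (m : ℕ) (a : S.K (m + 1) → ℚ) :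
    ∑ Y, ∑ p : S.Over m Y, a p.1.2 * a p.1.2 * D.slf m p.1.1 p.1.2 =
      - ∑ W : S.K (m + 2), D.vol (m + 2) W *
          ∑ k : Fin (m + 3), a (S.face (m + 1) k W) * a (S.face (m + 1) k W) := by
  classical
  rw [S.sum_over m fun Y p => a p.1.2 * a p.1.2 * D.slf m p.1.1 p.1.2]
  have h1 : ∀ Z : S.K (m + 1), ∑ i : Fin (m + 2), a Z * a Z * D.slf m i Z =
      - ∑ W : S.K (m + 2), D.vol (m + 2) W *
          (if S.Sub (m + 1) W Z then a Z * a Z else 0) := by
    intro Z
    rw [← Finset.mul_sum, hD.slf_sum, mul_neg, common, Finset.mul_sum]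
    congr 1
    refine Finset.sum_congr rfl fun W _ => ?_
    by_cases h : S.Sub (m + 1) W Z
    · rw [if_pos ⟨h, h⟩, if_pos h]
      ring
    · rw [if_neg (fun h' => h h'.1), if_neg h]
      ring
  rw [Finset.sum_congr rfl fun Z _ => h1 Z, Finset.sum_neg_distrib, Finset.sum_comm]
  congr 1
  refine Finset.sum_congr rfl fun W _ => ?_
  rw [← Finset.mul_sum, S.sum_sub (m + 1) W fun Z => a Z * a Z]

theorem off_sum (m : ℕ) (a : S.K (m + 1) → ℚ) :
    ∑ Y, ∑ p : S.Over m Y, ∑ p' : S.Over m Y, D.off m a p.1 p'.1 =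
      ∑ W : S.K (m + 2), D.vol (m + 2) W *
        ∑ k : Fin (m + 3), ∑ k' : Fin (m + 3),
          S.hh m a (S.face (m + 1) k W) (S.face (m + 1) k' W) := by
  classical
  have h1 : ∀ Y : S.K m, ∀ p : S.Over m Y, ∑ p' : S.Over m Y, D.off m a p.1 p'.1 =
      ∑ Z' : S.K (m + 1), ∑ i' : Fin (m + 2),
        if S.face m i' Z' = Y then D.off m a p.1 (i', Z') else 0 := fun Y p =>
    S.sum_one m Y fun x' => D.off m a p.1 x'
  rw [Finset.sum_congr rfl fun Y _ => Finset.sum_congr rfl fun p _ => h1 Y p,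
    S.sum_over m fun Y p => ∑ Z' : S.K (m + 1), ∑ i' : Fin (m + 2),
        if S.face m i' Z' = Y then D.off m a p.1 (i', Z') else 0]
  have h2 : ∀ Z : S.K (m + 1), ∑ i : Fin (m + 2), ∑ Z' : S.K (m + 1), ∑ i' : Fin (m + 2),
      (if S.face m i' Z' = S.face m i Z then D.off m a (i, Z) (i', Z') else 0) =
      ∑ Z' : S.K (m + 1), ∑ W : S.K (m + 2), D.vol (m + 2) W *
        (if S.Sub (m + 1) W Z then (if S.Sub (m + 1) W Z' then S.hh m a Z Z' else 0) else 0) := by
    intro Z
    rw [Finset.sum_comm]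
    refine Finset.sum_congr rfl fun Z' _ => ?_
    have h3 : ∀ i i' : Fin (m + 2),
        (if S.face m i' Z' = S.face m i Z then D.off m a (i, Z) (i', Z') else 0) =
        (if S.face m i' Z' = S.face m i Z then
          (if ((i, Z) : Fin (m + 2) × S.K (m + 1)) ≠ (i', Z') then
            S.cf m a (i, Z) * S.cf m a (i', Z') else 0) else 0) *
        ∑ W : S.K (m + 2), (if S.Sub (m + 1) W Z ∧ S.Sub (m + 1) W Z'
          then D.vol (m + 2) W else 0) := by
      intro i i'
      by_cases h : S.face m i' Z' = S.face m i Z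
      · rw [if_pos h, if_pos h]
        by_cases h' : ((i, Z) : Fin (m + 2) × S.K (m + 1)) ≠ (i', Z')
        · rw [off, if_pos h', if_pos h']
          rfl
        · rw [off, if_neg h', if_neg h']
          ring
      · rw [if_neg h, if_neg h]
        ring
    rw [Finset.sum_congr rfl fun i _ => Finset.sum_congr rfl fun i' _ => h3 i i']
    rw [Finset.sum_congr rfl fun i _ => (Finset.sum_mul _ _ _).symm, ← Finset.sum_mul]
    rw [show (∑ i : Fin (m + 2), ∑ i' : Fin (m + 2),
        (if S.face m i' Z' = S.face m i Z then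
          (if ((i, Z) : Fin (m + 2) × S.K (m + 1)) ≠ (i', Z') then
            S.cf m a (i, Z) * S.cf m a (i', Z') else 0) else 0)) = S.hh m a Z Z' from rfl,
      Finset.mul_sum]
    refine Finset.sum_congr rfl fun W _ => ?_
    by_cases hZ : S.Sub (m + 1) W Z
    · by_cases hZ' : S.Sub (m + 1) W Z'
      · rw [if_pos ⟨hZ, hZ'⟩, if_pos hZ, if_pos hZ']
        ring
      · rw [if_neg (fun h => hZ' h.2), if_pos hZ, if_neg hZ']
        ring
    · rw [if_neg (fun h => hZ h.1), if_neg hZ]
      ring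
  rw [Finset.sum_congr rfl fun Z _ => h2 Z,
    Finset.sum_congr rfl fun Z _ => Finset.sum_comm, Finset.sum_comm]
  refine Finset.sum_congr rfl fun W _ => ?_
  rw [Finset.sum_congr rfl fun Z _ => (Finset.mul_sum _ _ _).symm, ← Finset.mul_sum]
  congr 1
  rw [← S.sum_sub (m + 1) W fun Z => ∑ k' : Fin (m + 3), S.hh m a Z (S.face (m + 1) k' W)]
  refine Finset.sum_congr rfl fun Z _ => ?_
  by_cases hZ : S.Sub (m + 1) W Z
  · simp only [if_pos hZ]
    exact S.sum_sub (m + 1) W fun Z' => S.hh m a Z Z'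
  · simp only [if_neg hZ]
    exact Finset.sum_const_zero

/-- **Key identity.** -/
theorem key (hD : D.IsPolarised) (m : ℕ) (a : S.K (m + 1) → ℚ) :
    ∑ Y, D.sq m Y (S.gysin ℚ m a Y) =
      - ∑ W : S.K (m + 2), D.vol (m + 2) W * (S.delta ℚ (m + 1) a W) ^ 2 := by
  classical
  rw [Finset.sum_congr rfl fun Y _ => (D.sq_gysin m a Y).trans Finset.sum_add_distrib,
    Finset.sum_add_distrib, D.diag_sum hD, D.off_sum, ← Finset.sum_neg_distrib,
    ← Finset.sum_add_distrib, ← Finset.sum_neg_distrib]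
  refine Finset.sum_congr rfl fun W _ => ?_
  set u : Fin (m + 3) → ℚ := fun k => (-1) ^ (k : ℕ) * a (S.face (m + 1) k W) with hu
  have h1 : S.delta ℚ (m + 1) a W = ∑ k, u k := rfl
  have h2 : ∀ k k' : Fin (m + 3), S.hh m a (S.face (m + 1) k W) (S.face (m + 1) k' W) =
      (if k = k' then u k * u k else 0) - u k * u k' := by
    intro k k'
    rw [S.hh_pair]
    by_cases h : k = k'
    · subst h
      simp
    · rw [if_neg h, if_neg h]
      simp only [hu]
      ring
  have h3 : ∀ k : Fin (m + 3), a (S.face (m + 1) k W) * a (S.face (m + 1) k W) = u k * u k := by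
    intro k
    have : ((-1 : ℚ) ^ (k : ℕ)) * (-1) ^ (k : ℕ) = 1 := by
      rw [← mul_pow]
      simp
    simp only [hu]
    linear_combination -(a (S.face (m + 1) k W) * a (S.face (m + 1) k W)) * this
  rw [h1, Finset.sum_congr rfl fun k _ => h3 k,
    Finset.sum_congr rfl fun k _ => Finset.sum_congr rfl fun k' _ => h2 k k']
  have h4 : ∑ k, ∑ k', ((if k = k' then u k * u k else 0) - u k * u k') =
      ∑ k, u k * u k - (∑ k, u k) ^ 2 := by
    simp only [Finset.sum_sub_distrib, Finset.sum_ite_eq, Finset.mem_univ, if_true]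
    rw [_root_.sq]
    rw [Finset.sum_mul_sum]
  rw [h4]
  ring

end Numbers

end Pool.Agent.MP_f8720a_ag
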