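import Pool.Agent.Lib.MP_f8720a_ag.Steps

/-!
# The outer steps determine the outer part of the monodromy filtration
-/

namespace Pool.Agent.MP_f8720a_ag

section

variable {F H : Type} [Field F] [AddCommGroup H] [Module F H] {N : Module.End F H}

/-- Two filtrations with the same outer steps agree there. -/
theorem agree {q : ℕ} {P M : ℤ → Submodule F H} (hP : IsWeight N q P) (hM : IsWeight N q M)
    (r : ℕ) (h1 : ∀ e : ℕ, r ≤ e → StepIso N P q e) (h2 : ∀ e : ℕ, r ≤ e → StepIso N M q e) :
    ∀ e : ℕ, r ≤ e → M (q + e - 1) = P (q + e - 1) ∧ M (q - e) = P (q - e) := by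
  have big : ∀ {P : ℤ → Submodule F H}, IsWeight N q P → ∀ k : ℤ, 2 * q ≤ k → P k = ⊤ := by
    intro P hP k hk
    rw [eq_top_iff, ← hP.top]
    exact hP.mono hk
  have small : ∀ {P : ℤ → Submodule F H}, IsWeight N q P → ∀ k : ℤ, k ≤ -1 → P k = ⊥ := by
    intro P hP k hk
    rw [eq_bot_iff, ← hP.bot]
    exact hP.mono hk
  have char1 : ∀ {P : ℤ → Submodule F H}, IsWeight N q P → ∀ e : ℕ, StepIso N P q e →
      ∀ x, x ∈ P (q + e - 1) ↔ x ∈ P (q + e) ∧ (N ^ e) x ∈ P (q - e - 1) := by
    intro P hP e he x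
    constructor
    · intro hx
      refine ⟨hP.mono (by omega) hx, ?_⟩
      have := pow_mem N P hP.step e _ x hx
      rwa [show (q : ℤ) + e - 1 - 2 * e = q - e - 1 by ring] at this
    · rintro ⟨hx, hx'⟩
      exact he.1 x hx hx'
  have char2 : ∀ {P : ℤ → Submodule F H}, IsWeight N q P → ∀ e : ℕ, StepIso N P q e →
      ∀ y, y ∈ P (q - e) ↔ ∃ x ∈ P (q + e), y - (N ^ e) x ∈ P (q - e - 1) := by
    intro P hP e he y
    constructor
    · exact he.2 y
    · rintro ⟨x, hx, hx'⟩
      have h3 := pow_mem N P hP.step e _ x hx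
      rw [show (q : ℤ) + e - 2 * e = q - e by ring] at h3
      have h4 := add_mem (hP.mono (by omega) hx' : y - (N ^ e) x ∈ P (q - e)) h3
      rwa [sub_add_cancel] at h4
  -- descending induction from `e = q + 1`
  have main : ∀ j : ℕ, ∀ e : ℕ, r ≤ e → e + j = q + 1 →
      M (q + e - 1) = P (q + e - 1) ∧ M (q - e) = P (q - e) := by
    intro j
    induction j with
    | zero =>
      intro e _ he
      have he' : (e : ℤ) = q + 1 := by omega
      rw [big hP _ (by omega), big hM _ (by omega), small hP _ (by omega), small hM _ (by omega)]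
      exact ⟨rfl, rfl⟩
    | succ j ih =>
      intro e hre he
      obtain ⟨e1, e2⟩ := ih (e + 1) (by omega) (by omega)
      have e1' : M (q + e) = P (q + e) := by
        have : (q : ℤ) + ((e + 1 : ℕ) : ℤ) - 1 = q + e := by
          push_cast
          ring
        rwa [this] at e1
      have e2' : M (q - e - 1) = P (q - e - 1) := by
        have : (q : ℤ) - ((e + 1 : ℕ) : ℤ) = q - e - 1 := by
          push_cast
          ring
        rwa [this] at e2
      constructor
      · ext x
        rw [char1 hP e (h1 e hre), char1 hM e (h2 e hre), e1', e2']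
      · ext y
        rw [char2 hP e (h1 e hre), char2 hM e (h2 e hre), e1', e2']
  intro e hre
  by_cases he : e ≤ q + 1
  · exact main (q + 1 - e) e hre (by omega)
  · rw [big hP _ (by omega), big hM _ (by omega), small hP _ (by omega), small hM _ (by omega)]
    exact ⟨rfl, rfl⟩

theorem outer_of {q : ℕ} {P : ℤ → Submodule F H} (hP : IsWeight N q P) (r : ℕ) (hr : 1 ≤ r)
    (hall : ∀ e : ℕ, r ≤ e → StepIso N P q e) : Outer N P q r := by
  refine ⟨hall, ?_, ?_⟩
  · intro M hM
    exact agree hP (hM.isWeight hP.nil) r hall fun e he => hM.iso e (by omega)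
  · intro hgap
    refine ⟨hP.mono, ⟨_, hP.bot⟩, ⟨_, hP.top⟩, hP.step, fun e he => ?_⟩
    by_cases her : e < r
    · exact stepIso_of_gap e (hgap e he her).1 (hgap e he her).2
    · exact hall e (not_lt.1 her)

theorem IsWeight.all_of {q : ℕ} {P : ℤ → Submodule F H} (hP : IsWeight N q P)
    (hs : StepIso N P q q) : ∀ e : ℕ, q ≤ e → StepIso N P q e := by
  intro e he
  rcases Nat.lt_or_ge q e with h | h
  · exact hP.stepIso h
  · have : e = q := by omega
    subst this
    exact hs

end

end Pool.Agent.MP_f8720a_ag
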