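import Pool.Agent.Lib.MP_f8720a_ag.Key

/-!
# The two outer terms, rational coefficients
-/

namespace Pool.Agent.MP_f8720a_ag

namespace Strata

variable (S : Strata)

open Classical in
/-- Auxiliary: the part of the double coboundary that belongs to two omitted places. -/
noncomputable def tt (m : ℕ) (b : S.K m → ℚ) (W : S.K (m + 2)) (k k' : Fin (m + 3)) : ℚ :=
  ∑ i : Fin (m + 2), if k.succAbove i = k' then
    ((-1) ^ (k : ℕ) * (-1) ^ (i : ℕ)) * b (S.face m i (S.face (m + 1) k W)) else 0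

theorem tt_eq (m : ℕ) (b : S.K m → ℚ) (W : S.K (m + 2)) (k k' : Fin (m + 3)) (i : Fin (m + 2))
    (hi : k.succAbove i = k') :
    S.tt m b W k k' =
      ((-1) ^ (k : ℕ) * (-1) ^ (i : ℕ)) * b (S.face m i (S.face (m + 1) k W)) := by
  classical
  rw [tt, Finset.sum_eq_single i, if_pos hi]
  · intro j _ hj
    rw [if_neg]
    intro h
    exact hj (Fin.succAbove_right_injective (h.trans hi.symm))
  · intro h
    exact absurd (Finset.mem_univ _) h

theorem tt_anti (m : ℕ) (b : S.K m → ℚ) (W : S.K (m + 2)) (k k' : Fin (m + 3)) :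
    S.tt m b W k k' = - S.tt m b W k' k := by
  classical
  by_cases hk : k = k'
  · subst hk
    have : S.tt m b W k k = 0 := by
      rw [tt]
      refine Finset.sum_eq_zero fun i _ => ?_
      rw [if_neg (Fin.succAbove_ne k i)]
    rw [this, neg_zero]
  · obtain ⟨i₀, hi₀⟩ := Fin.exists_succAbove_eq (Ne.symm hk)
    obtain ⟨i₁, hi₁⟩ := Fin.exists_succAbove_eq hk
    rw [S.tt_eq m b W k k' i₀ hi₀, S.tt_eq m b W k' k i₁ hi₁,
      (S.face_face_iff m W k k' hk i₀ i₁ hi₀ hi₁ i₀ i₁).2 ⟨rfl, rfl⟩]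
    have h := sign_pair m k k' hk i₀ i₁ hi₀ hi₁
    have h1 : ((-1 : ℚ) ^ (i₁ : ℕ)) * (-1) ^ (i₁ : ℕ) = 1 := by
      rw [← mul_pow]
      simp
    have h2 : ((-1 : ℚ) ^ (k : ℕ)) * (-1) ^ (k : ℕ) = 1 := by
      rw [← mul_pow]
      simp
    set x := b (S.face m i₁ (S.face (m + 1) k' W))
    have h3 : ((-1 : ℚ) ^ (k : ℕ)) * (-1) ^ (i₀ : ℕ) = - ((-1) ^ (k' : ℕ) * (-1) ^ (i₁ : ℕ)) := by
      calc ((-1 : ℚ) ^ (k : ℕ)) * (-1) ^ (i₀ : ℕ)
          = ((-1) ^ (k : ℕ)) * ((-1) ^ (i₀ : ℕ) * (-1) ^ (i₁ : ℕ)) * (-1) ^ (i₁ : ℕ) := by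
            linear_combination -((-1 : ℚ) ^ (k : ℕ) * (-1) ^ (i₀ : ℕ)) * h1
        _ = - ((-1) ^ (k' : ℕ) * (-1) ^ (i₁ : ℕ)) := by
            rw [h]
            linear_combination -((-1 : ℚ) ^ (k' : ℕ) * (-1) ^ (i₁ : ℕ)) * h2
    rw [h3]
    ring

theorem delta_delta (m : ℕ) (b : S.K m → ℚ) :
    S.delta ℚ (m + 1) (S.delta ℚ m b) = 0 := by
  classical
  funext W
  have h1 : S.delta ℚ (m + 1) (S.delta ℚ m b) W = ∑ k, ∑ k', S.tt m b W k k' := by
    show ∑ k : Fin (m + 3), (-1) ^ (k : ℕ) *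
      (∑ i : Fin (m + 2), (-1) ^ (i : ℕ) * b (S.face m i (S.face (m + 1) k W))) = _
    refine Finset.sum_congr rfl fun k _ => ?_
    simp only [tt]
    rw [Finset.sum_comm, Finset.mul_sum]
    refine Finset.sum_congr rfl fun i _ => ?_
    rw [Finset.sum_ite_eq Finset.univ (k.succAbove i), if_pos (Finset.mem_univ _)]
    ring
  have h2 : ∑ k, ∑ k', S.tt m b W k k' = - ∑ k, ∑ k', S.tt m b W k k' := by
    conv_lhs => rw [Finset.sum_comm]
    rw [← Finset.sum_neg_distrib]
    refine Finset.sum_congr rfl fun k _ => ?_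
    rw [← Finset.sum_neg_distrib]
    exact Finset.sum_congr rfl fun k' _ => S.tt_anti m b W k' k
  rw [h1]
  show _ = (0 : ℚ)
  linarith

end Strata

namespace Numbers

variable {S : Strata} (D : Numbers S)

theorem adj (m : ℕ) (a : S.K (m + 1) → ℚ) (b : S.K m → ℚ) :
    ∑ Z, D.vol (m + 1) Z * a Z * S.delta ℚ m b Z =
      ∑ Y, b Y * D.dg m Y (S.gysin ℚ m a Y) := by
  have h1 : ∑ Y, b Y * D.dg m Y (S.gysin ℚ m a Y) =
      ∑ Y, ∑ p : S.Over m Y, b Y * (S.cf m a p.1 * D.vol (m + 1) p.1.2) := by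
    refine Finset.sum_congr rfl fun Y _ => ?_
    rw [dg, Finset.mul_sum]
    rfl
  rw [h1, S.sum_over m fun Y p => b Y * (S.cf m a p.1 * D.vol (m + 1) p.1.2)]
  refine Finset.sum_congr rfl fun Z _ => ?_
  show D.vol (m + 1) Z * a Z * (∑ k : Fin (m + 2), (-1) ^ (k : ℕ) * b (S.face m k Z)) = _
  rw [Finset.mul_sum]
  refine Finset.sum_congr rfl fun i _ => ?_
  simp only [Strata.cf]
  ring

/-- The weighted inner product on the cochains. -/
noncomputable def ip (m : ℕ) : LinearMap.BilinForm ℚ (S.K (m + 1) → ℚ) :=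
  LinearMap.mk₂ ℚ (fun a a' => ∑ Z, D.vol (m + 1) Z * a Z * a' Z)
    (fun a b c => by
      simp only [Pi.add_apply, mul_add, add_mul, Finset.sum_add_distrib])
    (fun r a c => by
      simp only [Pi.smul_apply, smul_eq_mul, Finset.mul_sum]
      exact Finset.sum_congr rfl fun Z _ => by ring)
    (fun a b c => by
      simp only [Pi.add_apply, mul_add, Finset.sum_add_distrib])
    (fun r a c => by
      simp only [Pi.smul_apply, smul_eq_mul, Finset.mul_sum]
      exact Finset.sum_congr rfl fun Z _ => by ring)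

theorem ip_apply (m : ℕ) (a a' : S.K (m + 1) → ℚ) :
    D.ip m a a' = ∑ Z, D.vol (m + 1) Z * a Z * a' Z := rfl

theorem ip_symm (m : ℕ) (a a' : S.K (m + 1) → ℚ) : D.ip m a a' = D.ip m a' a := by
  rw [ip_apply, ip_apply]
  exact Finset.sum_congr rfl fun Z _ => by ring

theorem ip_def (hD : D.IsPolarised) (m : ℕ) (a : S.K (m + 1) → ℚ) (h : D.ip m a a = 0) :
    a = 0 := by
  rw [ip_apply] at h
  have h2 : ∀ Z, 0 ≤ D.vol (m + 1) Z * a Z * a Z := by
    intro Z
    rw [mul_assoc]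
    exact mul_nonneg (hD.vol_pos _ _).le (mul_self_nonneg _)
  have h3 := (Finset.sum_eq_zero_iff_of_nonneg fun Z _ => h2 Z).1 h
  funext Z
  have h4 := h3 Z (Finset.mem_univ Z)
  rw [mul_assoc] at h4
  have h5 := (mul_eq_zero.1 h4).resolve_left (hD.vol_pos _ _).ne'
  simpa using h5

theorem inj_rat (hD : D.IsPolarised) (m : ℕ) (a : S.K (m + 1) → ℚ) (b : S.K m → ℚ)
    (hab : a = S.delta ℚ m b) (hg : ∀ Y, D.dg m Y (S.gysin ℚ m a Y) = 0) : a = 0 := by
  apply D.ip_def hD m
  have := D.adj m a b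
  rw [← hab] at this
  rw [ip_apply, this]
  refine Finset.sum_eq_zero fun Y _ => ?_
  rw [hg Y, mul_zero]

/-- Orthogonal projection to the coboundaries, lifted to cochains. -/
theorem exists_lift (hD : D.IsPolarised) (m : ℕ) :
    ∃ π : (S.K (m + 1) → ℚ) →ₗ[ℚ] (S.K m → ℚ),
    ∀ a b, D.ip m (a - S.delta ℚ m (π a)) (S.delta ℚ m b) = 0 := by
  classical
  set W := LinearMap.range (S.delta ℚ m) with hW
  have hrefl : (D.ip m).IsRefl := by
    intro x y h
    rw [ip_symm]
    exact h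
  have hnd : ((D.ip m).restrict W).Nondegenerate := by
    have hsep : ∀ x : W, (∀ y : W, D.ip m x y = 0) → x = 0 := by
      intro x hx
      apply Subtype.ext
      exact D.ip_def hD m _ (hx x)
    constructor
    · intro x hx
      exact hsep x fun y => hx y
    · intro x hx
      exact hsep x fun y => by
        rw [ip_symm]
        exact hx y
  have hc : IsCompl W ((D.ip m).orthogonal W) :=
    LinearMap.BilinForm.isCompl_orthogonal_of_restrict_nondegenerate hrefl hnd
  obtain ⟨s, hs⟩ := LinearMap.exists_rightInverse_of_surjective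
    (S.delta ℚ m).rangeRestrict (LinearMap.range_rangeRestrict _)
  refine ⟨s ∘ₗ (Submodule.projectionOnto W _ hc), fun a b => ?_⟩
  have h1 : S.delta ℚ m (s (Submodule.projectionOnto W _ hc a)) =
      (Submodule.projectionOnto W _ hc a : S.K (m + 1) → ℚ) := by
    have := LinearMap.congr_fun hs (Submodule.projectionOnto W _ hc a)
    have := congrArg Subtype.val this
    exact this
  rw [LinearMap.comp_apply, h1]
  have h2 : a - (Submodule.projectionOnto W _ hc a : S.K (m + 1) → ℚ) ∈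
      (D.ip m).orthogonal W := by
    have hker : a - (Submodule.projectionOnto W _ hc a : S.K (m + 1) → ℚ) ∈
        LinearMap.ker (Submodule.projectionOnto W _ hc) := by
      rw [LinearMap.mem_ker, map_sub, Submodule.projectionOnto_apply_left, sub_self]
    rwa [Submodule.ker_projectionOnto hc] at hker
  rw [ip_symm]
  exact h2 _ ⟨b, rfl⟩

theorem inter_symm (m : ℕ) (Y : S.K m) (p p' : S.Over m Y) :
    D.inter m Y p p' = D.inter m Y p' p := by
  classical
  by_cases h : p = p'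
  · rw [h]
  · rw [inter, inter, if_neg h, if_neg (fun e => h e.symm), common, common]
    refine Finset.sum_congr rfl fun W _ => ?_
    simp only [and_comm]

theorem sq_add (m : ℕ) (Y : S.K m) (x y : S.Over m Y → ℚ) (s : ℚ) :
    D.sq m Y (fun p => y p + s * x p) =
      D.sq m Y y + 2 * s * (∑ p, ∑ p', x p * y p' * D.inter m Y p p') + s ^ 2 * D.sq m Y x := by
  have h1 : ∑ p, ∑ p', y p * x p' * D.inter m Y p p' =
      ∑ p, ∑ p', x p * y p' * D.inter m Y p p' := by
    rw [Finset.sum_comm]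
    refine Finset.sum_congr rfl fun p _ => Finset.sum_congr rfl fun p' _ => ?_
    rw [D.inter_symm m Y p' p]
    ring
  have h2 : D.sq m Y (fun p => y p + s * x p) =
      D.sq m Y y + s * (∑ p, ∑ p', y p * x p' * D.inter m Y p p') +
        s * (∑ p, ∑ p', x p * y p' * D.inter m Y p p') + s ^ 2 * D.sq m Y x := by
    simp only [sq, Finset.mul_sum]
    rw [← Finset.sum_add_distrib, ← Finset.sum_add_distrib, ← Finset.sum_add_distrib]
    refine Finset.sum_congr rfl fun p _ => ?_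
    rw [← Finset.sum_add_distrib, ← Finset.sum_add_distrib, ← Finset.sum_add_distrib]
    refine Finset.sum_congr rfl fun p' _ => ?_
    ring
  rw [h2, h1]
  ring

/-- A divisor of degree zero and self-intersection zero is numerically trivial. -/
theorem triv_of_sq (hD : D.IsPolarised) (m : ℕ) (Y : S.K m) (x : S.Over m Y → ℚ)
    (h0 : D.dg m Y x = 0) (h1 : D.sq m Y x = 0) (p' : S.Over m Y) :
    ∑ p, x p * D.inter m Y p p' = 0 := by
  classical
  set y : S.Over m Y → ℚ := fun p => if p = p' then 1 else 0 with hy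
  have hB : ∑ p, ∑ p'', x p * y p'' * D.inter m Y p p'' = ∑ p, x p * D.inter m Y p p' := by
    refine Finset.sum_congr rfl fun p _ => ?_
    rw [Finset.sum_eq_single p']
    · simp [hy]
    · intro p'' _ hp
      simp [hy, hp]
    · intro h
      exact absurd (Finset.mem_univ _) h
  set B := ∑ p, x p * D.inter m Y p p' with hBdef
  by_contra hne
  have hv := hD.vol_pos m Y
  have hin : ∀ s : ℚ, D.vol m Y * (D.sq m Y y + 2 * s * B) ≤ (D.dg m Y y) ^ 2 := by
    intro s
    have h3 := hD.index m Y (fun p => y p + s * x p)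
    have h4 := D.sq_add m Y x y s
    rw [hB, h1, mul_zero, add_zero] at h4
    have h5 : ∑ p, (y p + s * x p) * D.vol (m + 1) p.1.2 = D.dg m Y y := by
      have : ∑ p, (y p + s * x p) * D.vol (m + 1) p.1.2 = D.dg m Y y + s * D.dg m Y x := by
        rw [dg, dg, Finset.mul_sum, ← Finset.sum_add_distrib]
        exact Finset.sum_congr rfl fun p _ => by ring
      rw [this, h0, mul_zero, add_zero]
    rw [h5] at h3
    rw [← h4]
    exact h3
  have h6 := hin (((D.dg m Y y) ^ 2 - D.vol m Y * D.sq m Y y + 1) / (2 * D.vol m Y * B))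
  have h7 : D.vol m Y * (D.sq m Y y + 2 * (((D.dg m Y y) ^ 2 - D.vol m Y * D.sq m Y y + 1) /
      (2 * D.vol m Y * B)) * B) = (D.dg m Y y) ^ 2 + 1 := by
    field_simp
    ring
  rw [h7] at h6
  linarith

theorem exists_proj (hD : D.IsPolarised) (m : ℕ) :
    ∃ π : (S.K (m + 1) → ℚ) →ₗ[ℚ] (S.K m → ℚ),
    ∀ a, S.delta ℚ (m + 1) a = 0 → ∀ Y,
      D.dg m Y (S.gysin ℚ m (a - S.delta ℚ m (π a)) Y) = 0 ∧
      ∀ p', ∑ p, S.gysin ℚ m (a - S.delta ℚ m (π a)) Y p * D.inter m Y p p' = 0 := by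
  classical
  obtain ⟨π, hπ⟩ := D.exists_lift hD m
  refine ⟨π, fun a ha => ?_⟩
  set a' := a - S.delta ℚ m (π a) with ha'
  have hd : S.delta ℚ (m + 1) a' = 0 := by
    rw [ha', map_sub, ha, S.delta_delta, sub_zero]
  have hdeg : ∀ Y, D.dg m Y (S.gysin ℚ m a' Y) = 0 := by
    intro Y
    have h1 := hπ a (Pi.single Y 1)
    rw [← ha', ip_apply, D.adj m a' (Pi.single Y 1)] at h1
    rw [Finset.sum_eq_single Y] at h1
    · simpa using h1
    · intro Y' _ hY'
      rw [Pi.single_eq_of_ne hY', zero_mul]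
    · intro h
      exact absurd (Finset.mem_univ _) h
  have hsum := D.key hD m a'
  rw [hd] at hsum
  have hsum' : ∑ Y, D.sq m Y (S.gysin ℚ m a' Y) = 0 := by
    rw [hsum]
    simp
  have hle : ∀ Y, D.sq m Y (S.gysin ℚ m a' Y) ≤ 0 := by
    intro Y
    have h1 := hD.index m Y (S.gysin ℚ m a' Y)
    have h2 : ∑ p, S.gysin ℚ m a' Y p * D.vol (m + 1) p.1.2 = 0 := hdeg Y
    rw [h2] at h1
    have h3 : D.vol m Y * D.sq m Y (S.gysin ℚ m a' Y) ≤ 0 := by simpa [sq] using h1
    by_contra hcon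
    have := mul_pos (hD.vol_pos m Y) (not_le.1 hcon)
    linarith
  have heq := (Finset.sum_eq_zero_iff_of_nonpos fun Y _ => hle Y).1 hsum'
  intro Y
  exact ⟨hdeg Y, D.triv_of_sq hD m Y _ (hdeg Y) (heq Y (Finset.mem_univ Y))⟩

end Numbers

end Pool.Agent.MP_f8720a_ag
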