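import Pool.Agent.Lib.MP_f8720a_ag.Coef


/-!
# Steps of filtrations
-/

namespace Pool.Agent.MP_f8720a_ag

section Defs

variable {F H : Type} [Field F] [AddCommGroup H] [Module F H]

/-- The graded piece `gr_k = P_k / P_(k-1)`. -/
abbrev Gr (P : ℤ → Submodule F H) (k : ℤ) : Type :=
  P k ⧸ (P (k - 1)).comap (P k).subtype

/-- `N ^ e` induces an isomorphism `gr_(q+e) → gr_(q-e)`. -/
def StepIso (N : Module.End F H) (P : ℤ → Submodule F H) (q : ℤ) (e : ℕ) : Prop :=
  (∀ x ∈ P (q + e), (N ^ e) x ∈ P (q - e - 1) → x ∈ P (q + e - 1)) ∧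
    ∀ y ∈ P (q - e), ∃ x ∈ P (q + e), y - (N ^ e) x ∈ P (q - e - 1)

/-- `M` is the monodromy filtration of `N` centred at `q`. -/
structure IsMonodromy (N : Module.End F H) (q : ℤ) (M : ℤ → Submodule F H) : Prop where
  mono : Monotone M
  bot : ∃ k, M k = ⊥
  top : ∃ k, M k = ⊤
  step : ∀ k, (M k).map N ≤ M (k - 2)
  iso : ∀ e : ℕ, 1 ≤ e → StepIso N M q e

/-- The properties of the weight filtration `P` of `H = H^q` stated in the problem: it is
increasing, the weights are between `0` and `2 q`, and `N (P k) ⊆ P (k - 2)`. -/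
structure IsWeight (N : Module.End F H) (q : ℕ) (P : ℤ → Submodule F H) : Prop where
  mono : Monotone P
  bot : P (-1) = ⊥
  top : P (2 * q) = ⊤
  step : ∀ k, (P k).map N ≤ P (k - 2)

/-- For subspaces `T`, `Z ⊇ B` of a space `C` of cochains (a term of `E_1`): the graded pieces
`gr_(q+e)` and `gr_(q-e)` are `T` and `Z / B`, and `N ^ e` is induced by the identity of `C`,
up to a nonzero factor. -/
structure Induces (N : Module.End F H) (P : ℤ → Submodule F H) (q : ℤ) (e : ℕ) {C : Type}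
    [AddCommGroup C] [Module F C] (T Z B : Submodule F C) where
  grTop : Gr P (q + e) ≃ₗ[F] T
  grBot : Gr P (q - e) ≃ₗ[F] Z ⧸ B.comap Z.subtype
  sgn : F
  sgn_ne : sgn ≠ 0
  pow : ∀ (x : P (q + e)) (y : P (q - e)) (z : Z), (N ^ e) (x : H) = y →
    (z : C) = grTop (Submodule.Quotient.mk x) →
    grBot (Submodule.Quotient.mk y) = sgn • Submodule.Quotient.mk z

/-- The steps `e ≥ r` of the statement `P = M` on `H = H^q`: (1) `N ^ e` induces isomorphisms
`gr_(q+e) → gr_(q-e)` for all `e ≥ r`; (2) every monodromy filtration `M` of `N` agrees with `P`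
at the places `k ≤ q - r` and `k ≥ q + r - 1`; (3) `P` is the monodromy filtration if
`gr_(q+e) = gr_(q-e) = 0` for `0 < e < r`. -/
def Outer (N : Module.End F H) (P : ℤ → Submodule F H) (q : ℤ) (r : ℕ) : Prop :=
  (∀ e : ℕ, r ≤ e → StepIso N P q e) ∧
  (∀ M : ℤ → Submodule F H, IsMonodromy N q M → ∀ e : ℕ, r ≤ e →
    M (q + e - 1) = P (q + e - 1) ∧ M (q - e) = P (q - e)) ∧
  ((∀ e : ℕ, 1 ≤ e → e < r → P (q + e) = P (q + e - 1) ∧ P (q - e) = P (q - e - 1)) →
    IsMonodromy N q P)

end Defs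

section Lin

variable {F H : Type} [Field F] [AddCommGroup H] [Module F H] (N : Module.End F H)

theorem pow_mem (P : ℤ → Submodule F H) (hP : ∀ k, (P k).map N ≤ P (k - 2)) (j : ℕ) (k : ℤ)
    (x : H) (hx : x ∈ P k) : (N ^ j) x ∈ P (k - 2 * j) := by
  induction j with
  | zero => simpa using hx
  | succ j ih =>
    rw [pow_succ', Module.End.mul_apply]
    have := hP _ ⟨_, ih, rfl⟩
    convert this using 2
    push_cast
    ring

theorem Induces.stepIso {P : ℤ → Submodule F H} (hP : ∀ k, (P k).map N ≤ P (k - 2)) {q : ℤ}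
    {e : ℕ} {C : Type} [AddCommGroup C] [Module F C] {T Z B : Submodule F C}
    (w : Induces N P q e T Z B) (hf : Bij T Z B) : StepIso N P q e := by
  obtain ⟨hTZ, hinj, hsurj⟩ := hf
  have hmem : ∀ x ∈ P (q + e), (N ^ e) x ∈ P (q - e) := by
    intro x hx
    have := pow_mem N P hP e _ x hx
    rwa [show q + (e : ℤ) - 2 * e = q - e by ring] at this
  constructor
  · intro x hx hNx
    set t := w.grTop (Submodule.Quotient.mk ⟨x, hx⟩) with ht
    have h1 := w.pow ⟨x, hx⟩ ⟨_, hmem x hx⟩ ⟨t, hTZ t.2⟩ rfl rfl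
    have h2 : (Submodule.Quotient.mk ⟨(N ^ e) x, hmem x hx⟩ : Gr P (q - e)) = 0 :=
      (Submodule.Quotient.mk_eq_zero _).2 hNx
    rw [h2, map_zero] at h1
    have h3 := (smul_eq_zero.1 h1.symm).resolve_left w.sgn_ne
    have h3' := (Submodule.Quotient.mk_eq_zero _).1 h3
    have h4 : t = 0 := Subtype.ext (hinj _ t.2 h3')
    rw [ht] at h4
    have h5 := (map_eq_zero_iff _ w.grTop.injective).1 h4
    have h6 := (Submodule.Quotient.mk_eq_zero _).1 h5
    exact h6
  · intro y hy
    obtain ⟨⟨z, hz⟩, hzy⟩ := Submodule.Quotient.mk_surjective _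
      (w.sgn⁻¹ • w.grBot (Submodule.Quotient.mk ⟨y, hy⟩))
    obtain ⟨t, ht, hzt⟩ := hsurj z hz
    obtain ⟨g, hg⟩ := w.grTop.surjective ⟨t, ht⟩
    obtain ⟨⟨x, hx⟩, rfl⟩ := Submodule.Quotient.mk_surjective _ g
    have h1 := w.pow ⟨x, hx⟩ ⟨_, hmem x hx⟩ ⟨t, hTZ ht⟩ rfl (by rw [hg])
    have h0 : (Submodule.Quotient.mk ⟨t, hTZ ht⟩ : Z ⧸ B.comap Z.subtype) =
        Submodule.Quotient.mk ⟨z, hz⟩ := by
      rw [eq_comm, Submodule.Quotient.eq]
      exact hzt
    rw [h0, hzy, smul_smul, mul_inv_cancel₀ w.sgn_ne, one_smul] at h1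
    have h2 := w.grBot.injective h1
    have h3 := (Submodule.Quotient.eq _).1 h2.symm
    exact ⟨x, hx, h3⟩

variable {N}

theorem IsWeight.nil {q : ℕ} {P : ℤ → Submodule F H} (hP : IsWeight N q P) : N ^ (q + 1) = 0 := by
  ext x
  have h1 := pow_mem N P hP.step (q + 1) (2 * q) x (by rw [hP.top]; trivial)
  have h2 : P (2 * q - 2 * ((q + 1 : ℕ) : ℤ)) ≤ P (-1) := hP.mono (by push_cast; omega)
  have h3 := h2 h1
  rw [hP.bot] at h3
  simpa using h3

theorem IsWeight.stepIso {q : ℕ} {P : ℤ → Submodule F H} (hP : IsWeight N q P) {e : ℕ}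
    (he : q < e) : StepIso N P q e := by
  constructor
  · intro x _ _
    have h1 : P (2 * q) ≤ P (q + e - 1) := hP.mono (by omega)
    rw [hP.top] at h1
    exact h1 trivial
  · intro y hy
    have h1 : P (q - e) ≤ P (-1) := hP.mono (by omega)
    rw [hP.bot] at h1
    have hy0 : y = 0 := by simpa using h1 hy
    refine ⟨0, zero_mem _, ?_⟩
    rw [hy0, map_zero, sub_zero]
    exact zero_mem _

/-- The outermost step says what the outermost terms are. -/
theorem IsWeight.outer {q : ℕ} {P : ℤ → Submodule F H} (hP : IsWeight N q P)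
    (h : StepIso N P q q) :
    P 0 = LinearMap.range (N ^ q) ∧ P (2 * q - 1) = LinearMap.ker (N ^ q) := by
  constructor
  · apply le_antisymm
    · intro y hy
      obtain ⟨x, _, hx⟩ := h.2 y (by rwa [sub_self])
      rw [sub_self, zero_sub, hP.bot, Submodule.mem_bot, sub_eq_zero] at hx
      exact ⟨x, hx.symm⟩
    · rintro _ ⟨x, rfl⟩
      have h1 := pow_mem N P hP.step q (2 * q) x (by rw [hP.top]; trivial)
      rwa [sub_self] at h1
  · apply le_antisymm
    · intro x hx
      have h1 := pow_mem N P hP.step q _ x hx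
      rw [show (2 * (q : ℤ) - 1 - 2 * q) = -1 by ring, hP.bot] at h1
      exact h1
    · intro x hx
      have h1 := h.1 x (by
        rw [show ((q : ℤ) + q) = 2 * q by ring, hP.top]
        trivial) (by rw [LinearMap.mem_ker.1 hx]; exact zero_mem _)
      rwa [show ((q : ℤ) + q - 1) = 2 * q - 1 by ring] at h1

/-- The monodromy filtration of `N` centred at `q` has weights between `0` and `2 q` if
`N ^ (q + 1) = 0`. -/
theorem IsMonodromy.isWeight {q : ℕ} {M : ℤ → Submodule F H} (hM : IsMonodromy N q M)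
    (hN : N ^ (q + 1) = 0) : IsWeight N q M := by
  have hzero : ∀ e : ℕ, q + 1 ≤ e → N ^ e = 0 := by
    intro e he
    obtain ⟨r, rfl⟩ := Nat.exists_eq_add_of_le he
    rw [pow_add, hN, zero_mul]
  -- upper end
  have hup : ∀ j : ℕ, M (2 * q + j) = ⊤ → M (2 * q) = ⊤ := by
    intro j
    induction j with
    | zero => intro h; simpa using h
    | succ j ih =>
      intro h
      apply ih
      rw [eq_top_iff]
      intro x _
      have h1 := (hM.iso (q + 1 + j) (by omega)).1 x (by
        have : ((q : ℤ) + ((q + 1 + j : ℕ) : ℤ)) = 2 * q + ((j + 1 : ℕ) : ℤ) := by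
          push_cast
          ring
        rw [this, h]
        trivial) (by rw [hzero _ (by omega)]; exact zero_mem _)
      have : ((q : ℤ) + ((q + 1 + j : ℕ) : ℤ) - 1) = 2 * q + (j : ℤ) := by
        push_cast
        ring
      rwa [this] at h1
  have htop : M (2 * q) = ⊤ := by
    obtain ⟨k, hk⟩ := hM.top
    apply hup (k - 2 * q).toNat
    rw [eq_top_iff, ← hk]
    apply hM.mono
    have := Int.self_le_toNat (k - 2 * q)
    omega
  -- lower end
  have hdown : ∀ j : ℕ, M (-1 - j) = ⊥ → M (-1) = ⊥ := by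
    intro j
    induction j with
    | zero => intro h; simpa using h
    | succ j ih =>
      intro h
      apply ih
      rw [eq_bot_iff]
      intro y hy
      obtain ⟨x, _, hx⟩ := (hM.iso (q + 1 + j) (by omega)).2 y (by
        have : ((q : ℤ) - ((q + 1 + j : ℕ) : ℤ)) = -1 - (j : ℤ) := by
          push_cast
          ring
        rwa [this])
      rw [hzero _ (by omega)] at hx
      have : ((q : ℤ) - ((q + 1 + j : ℕ) : ℤ) - 1) = -1 - ((j + 1 : ℕ) : ℤ) := by
        push_cast
        ring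
      rw [this, h] at hx
      simpa using hx
  have hbot : M (-1) = ⊥ := by
    obtain ⟨k, hk⟩ := hM.bot
    apply hdown (-1 - k).toNat
    rw [eq_bot_iff, ← hk]
    apply hM.mono
    have := Int.self_le_toNat (-1 - k)
    omega
  exact ⟨hM.mono, hbot, htop, hM.step⟩

/-- A trivial step. -/
theorem stepIso_of_gap {q : ℤ} {P : ℤ → Submodule F H} (e : ℕ)
    (h1 : P (q + e) = P (q + e - 1)) (h2 : P (q - e) = P (q - e - 1)) : StepIso N P q e := by
  constructor
  · intro x hx _
    rwa [h1] at hx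
  · intro y hy
    refine ⟨0, zero_mem _, ?_⟩
    rw [map_zero, sub_zero]
    rwa [h2] at hy

end Lin

end Pool.Agent.MP_f8720a_ag
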